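import Mathlib
import Pool.Agent.P.MP_07218e_co.Defs

-- part Pool.Agent.P.MP_07218e_co.Rooted
section

namespace Pool.Agent.P.MP_07218e_co

open SimpleGraph

/-- A description of a graph as a rooted tree through a parent map and a depth function. -/
structure Rooted {V : Type} (G : SimpleGraph V) where
  root : V
  par : V → V
  dep : V → ℕ
  dep_root : dep root = 0
  dep_par : ∀ v, v ≠ root → dep (par v) + 1 = dep v
  adj_iff : ∀ u v, G.Adj u v ↔ (u ≠ root ∧ par u = v) ∨ (v ≠ root ∧ par v = u)

namespace Rooted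

variable {V : Type} {G : SimpleGraph V} (R : Rooted G)

lemma ne_root_of_pos {v : V} (h : 0 < R.dep v) : v ≠ R.root := by
  rintro rfl
  simp [R.dep_root] at h

lemma pos_of_ne_root {v : V} (h : v ≠ R.root) : 0 < R.dep v := by
  have := R.dep_par v h
  omega

lemma eq_root_of_dep {v : V} (h : R.dep v = 0) : v = R.root := by
  by_contra hne
  have := R.pos_of_ne_root hne
  omega

lemma dep_iter (a : ℕ) (v : V) (h : a ≤ R.dep v) : R.dep (R.par^[a] v) + a = R.dep v := by
  induction a with
  | zero => simp
  | succ a ih =>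
    have h1 := ih (by omega)
    rw [Function.iterate_succ_apply']
    have := R.dep_par (R.par^[a] v) (R.ne_root_of_pos (by omega))
    omega

lemma adj_par {v : V} (h : v ≠ R.root) : G.Adj v (R.par v) :=
  (R.adj_iff _ _).2 (Or.inl ⟨h, rfl⟩)

lemma reachable_root (v : V) : G.Reachable v R.root := by
  induction hd : R.dep v generalizing v with
  | zero => rw [R.eq_root_of_dep hd]
  | succ n ih =>
    have hv : v ≠ R.root := R.ne_root_of_pos (by omega)
    have := R.dep_par v hv
    exact (R.adj_par hv).reachable.trans (ih _ (by omega))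

include R in
lemma connected : G.Connected := by
  have : Nonempty V := ⟨R.root⟩
  exact ⟨fun u v => (R.reachable_root u).trans (R.reachable_root v).symm⟩

/-- `a` steps up from `u` and `b` steps up from `v` meet for the first time. -/
def Good (u v : V) (a b : ℕ) : Prop :=
  a ≤ R.dep u ∧ b ≤ R.dep v ∧ R.par^[a] u = R.par^[b] v ∧
    (0 < a → 0 < b → R.par^[a - 1] u ≠ R.par^[b - 1] v)

lemma Good.dep_eq {u v : V} {a b : ℕ} (h : R.Good u v a b) :
    R.dep u + b = R.dep v + a := by
  obtain ⟨h1, h2, h3, -⟩ := h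
  have e1 := R.dep_iter a u h1
  have e2 := R.dep_iter b v h2
  rw [h3] at e1
  omega

lemma good_not_lt {u v : V} {a b a' b' : ℕ} (h : R.Good u v a b) (h' : R.Good u v a' b') :
    ¬ a' < a := by
  intro hlt
  have e1 := h.dep_eq
  have e2 := h'.dep_eq
  apply h.2.2.2 (by omega) (by omega)
  obtain ⟨k, hk⟩ : ∃ k, a - 1 = k + a' := ⟨a - 1 - a', by omega⟩
  have hk' : b - 1 = k + b' := by omega
  rw [hk, hk', Function.iterate_add_apply, Function.iterate_add_apply, h'.2.2.1]

lemma good_unique {u v : V} {a b a' b' : ℕ} (h : R.Good u v a b) (h' : R.Good u v a' b') :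
    a = a' ∧ b = b' := by
  have e1 := h.dep_eq
  have e2 := h'.dep_eq
  have := R.good_not_lt h h'
  have := R.good_not_lt h' h
  omega

lemma path_struct {u v : V} (p : G.Walk u v) (hp : p.IsPath) :
    ∃ a b, a + b = p.length ∧ R.Good u v a b ∧ (∀ i ≤ a, R.par^[i] u ∈ p.support) ∧
      (∀ i ≤ b, R.par^[i] v ∈ p.support) := by
  induction p with
  | nil => exact ⟨0, 0, by simp, ⟨by simp, by simp, by simp, by simp⟩, by simp, by simp⟩
  | @cons u w v h q ih =>
    rw [Walk.cons_isPath_iff] at hp
    obtain ⟨a, b, hab, ⟨g1, g2, g3, g4⟩, s1, s2⟩ := ih hp.1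
    rcases (R.adj_iff u w).1 h with ⟨hu, hw⟩ | ⟨hw, hu⟩
    · have hd := R.dep_par u hu
      subst hw
      refine ⟨a + 1, b, by simp; omega, ⟨by omega, g2, by simpa using g3, ?_⟩, ?_, ?_⟩
      · intro _ hb
        rcases Nat.eq_zero_or_pos a with rfl | ha
        · intro e
          apply hp.2
          simp only [zero_add, Nat.sub_self, Function.iterate_zero, id_eq] at e
          have := s2 (b - 1) (by omega)
          rwa [← e] at this
        · have := g4 ha hb
          obtain ⟨a', rfl⟩ : ∃ a', a = a' + 1 := ⟨a - 1, by omega⟩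
          simpa using this
      · intro i hi
        rcases i with _ | i
        · simp
        · rw [Walk.support_cons]
          exact List.mem_cons_of_mem _ (by simpa using s1 i (by omega))
      · intro i hi
        rw [Walk.support_cons]
        exact List.mem_cons_of_mem _ (s2 i hi)
    · have ha : a = 0 := by
        by_contra hne
        apply hp.2
        have := s1 1 (by omega)
        simpa [hu] using this
      subst ha
      simp only [Function.iterate_zero, id_eq] at g3
      have e := R.dep_iter b v g2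
      rw [← g3] at e
      have hpos := R.pos_of_ne_root hw
      refine ⟨0, b + 1, by simp; omega, ⟨by omega, by omega, ?_, by simp⟩, ?_, ?_⟩
      · rw [Function.iterate_succ_apply', ← g3, hu]; rfl
      · intro i hi
        obtain rfl : i = 0 := by omega
        simp
      · intro i hi
        rcases Nat.lt_or_ge i (b + 1) with hlt | hge
        · rw [Walk.support_cons]
          exact List.mem_cons_of_mem _ (s2 i (by omega))
        · obtain rfl : i = b + 1 := by omega
          rw [Function.iterate_succ_apply', ← g3, hu]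
          simp

lemma length_eq_of_good {u v : V} {a b : ℕ} (h : R.Good u v a b) (p : G.Walk u v)
    (hp : p.IsPath) : p.length = a + b := by
  obtain ⟨a', b', hab, hg, -⟩ := R.path_struct p hp
  have := R.good_unique h hg
  omega

lemma exists_path_of_good {u v : V} {a b : ℕ} (h : R.Good u v a b) :
    ∃ p : G.Walk u v, p.IsPath ∧ p.length = a + b := by
  obtain ⟨p, hp⟩ := R.connected.exists_isPath u v
  exact ⟨p, hp, R.length_eq_of_good h p hp⟩

include R in
lemma isTree : G.IsTree := by
  refine ⟨R.connected, ?_⟩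
  intro v c hc
  have h3 := hc.three_le_length
  cases c with
  | nil => simp at h3
  | @cons _ w _ h q =>
    rw [Walk.cons_isCycle_iff] at hc
    obtain ⟨a, b, hab, hg, -⟩ := R.path_struct q hc.1
    have := R.length_eq_of_good hg (Walk.cons h.symm Walk.nil) (by simp [h.ne.symm])
    simp at this h3
    omega

/-- The children of a vertex. -/
def children (v : V) : Set V := {u | u ≠ R.root ∧ R.par u = v}

lemma neighborSet_root : G.neighborSet R.root = R.children R.root := by
  ext u
  simp [R.adj_iff, children]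

lemma neighborSet_of_ne {v : V} (hv : v ≠ R.root) :
    G.neighborSet v = insert (R.par v) (R.children v) := by
  ext u
  simp only [mem_neighborSet, R.adj_iff, children, Set.mem_insert_iff, Set.mem_ofPred_eq]
  constructor
  · rintro (⟨-, h⟩ | h)
    · exact Or.inl h.symm
    · exact Or.inr h
  · rintro (h | h)
    · exact Or.inl ⟨hv, h.symm⟩
    · exact Or.inr h

lemma par_notMem_children {v : V} (hv : v ≠ R.root) : R.par v ∉ R.children v := by
  rintro ⟨h1, h2⟩
  have e1 := R.dep_par v hv
  have e2 := R.dep_par _ h1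
  rw [h2] at e2
  omega

lemma ncard_neighborSet_of_ne [Finite V] {v : V} (hv : v ≠ R.root) :
    (G.neighborSet v).ncard = (R.children v).ncard + 1 := by
  rw [R.neighborSet_of_ne hv, Set.ncard_insert_of_notMem (R.par_notMem_children hv)]

end Rooted

lemma exists_rooted {V : Type} {G : SimpleGraph V} (hG : G.IsTree) (r : V) :
    ∃ R : Rooted G, R.root = r := by
  choose f hf hf' using fun v => hG.existsUnique_path v r
  have hr : f r = Walk.nil := (hf' r Walk.nil Walk.IsPath.nil).symm
  have hnil : ∀ v, v ≠ r → ¬ (f v).Nil := fun v hv => Walk.not_nil_of_ne hv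
  refine ⟨⟨r, fun v => (f v).snd, fun v => (f v).length, by simp [hr], ?_, ?_⟩, rfl⟩
  · intro v hv
    rw [← hf' _ (f v).tail (hf v).tail]
    exact Walk.length_tail_add_one (hnil v hv)
  · intro u v
    constructor
    · intro h
      by_cases hu : u ∈ (f v).support
      · right
        refine ⟨?_, (hG.isAcyclic.eq_snd_of_adj_start (hf v) h.symm hu).symm⟩
        rintro rfl
        rw [hr] at hu
        simp at hu
        exact h.ne hu
      · left
        refine ⟨?_, ?_⟩
        · rintro rfl
          exact hu (f v).end_mem_support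
        · rw [← hf' u (Walk.cons h (f v)) ((Walk.cons_isPath_iff _ _).2 ⟨hf v, hu⟩)]
          simp
    · rintro (⟨hu, rfl⟩ | ⟨hv, rfl⟩)
      · exact Walk.adj_snd (hnil u hu)
      · exact (Walk.adj_snd (hnil v hv)).symm

end Pool.Agent.P.MP_07218e_co
end

-- part Pool.Agent.P.MP_07218e_co.TreeLower
section

namespace Pool.Agent.P.MP_07218e_co

open SimpleGraph

/-- There is a leaf-to-leaf path of length `l`. -/
def LeafLen {V : Type} (T : SimpleGraph V) (l : ℕ) : Prop :=
  ∃ u v : V, (T.neighborSet u).ncard = 1 ∧ (T.neighborSet v).ncard = 1 ∧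
    ∃ p : T.Walk u v, p.IsPath ∧ p.length = l

namespace Rooted

variable {V : Type} {G : SimpleGraph V} (R : Rooted G)

/-- There is a childless vertex `k` levels below `v`. -/
def Below (v : V) (k : ℕ) : Prop :=
  ∃ x, x ≠ R.root ∧ R.children x = ∅ ∧ k ≤ R.dep x ∧ R.par^[k] x = v

lemma exists_below [Finite V] {v : V} (hv : v ≠ R.root) : ∃ k, R.Below v k := by
  have hne : ({x | ∃ k, k ≤ R.dep x ∧ R.par^[k] x = v} : Set V).Nonempty := ⟨v, 0, by simp, rfl⟩
  obtain ⟨x, ⟨k, hk, hx⟩, hmax⟩ := Set.exists_max_image _ R.dep (Set.toFinite _) hne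
  have e := R.dep_iter k x hk
  rw [hx] at e
  have hpos := R.pos_of_ne_root hv
  refine ⟨k, x, R.ne_root_of_pos (by omega), ?_, hk, hx⟩
  rw [Set.eq_empty_iff_forall_notMem]
  rintro c ⟨hc, hcx⟩
  have e2 := R.dep_par c hc
  rw [hcx] at e2
  have := hmax c ⟨k + 1, by omega, by rw [Function.iterate_succ_apply, hcx, hx]⟩
  omega

lemma Below.succ {v c : V} {k : ℕ} (h : R.Below c k) (hc : c ∈ R.children v) :
    R.Below v (k + 1) := by
  obtain ⟨x, h1, h2, h3, h4⟩ := h
  have e := R.dep_iter k x h3
  rw [h4] at e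
  have := R.pos_of_ne_root hc.1
  exact ⟨x, h1, h2, by omega, by rw [Function.iterate_succ_apply', h4, hc.2]⟩

open Classical in
/-- Least depth of a childless vertex below `v`. -/
noncomputable def md (v : V) : ℕ := if h : ∃ k, R.Below v k then Nat.find h else 0

lemma md_spec [Finite V] {v : V} (hv : v ≠ R.root) : R.Below v (R.md v) := by
  classical
  have h := R.exists_below hv
  simp only [md, dif_pos h]
  exact Nat.find_spec h

lemma md_le {v : V} {k : ℕ} (hk : R.Below v k) : R.md v ≤ k := by
  classical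
  have h : ∃ k, R.Below v k := ⟨k, hk⟩
  simp only [md, dif_pos h]
  exact Nat.find_min' h hk

lemma leafLen_of_good [Finite V] {x y : V} {a b : ℕ} (hx : x ≠ R.root) (hx' : R.children x = ∅)
    (hy : y ≠ R.root) (hy' : R.children y = ∅) (h : R.Good x y a b) : LeafLen G (a + b) := by
  refine ⟨x, y, ?_, ?_, R.exists_path_of_good h⟩
  · rw [R.ncard_neighborSet_of_ne hx, hx']; simp
  · rw [R.ncard_neighborSet_of_ne hy, hy']; simp

lemma two_children [Finite V] (hT : IsOneThreeTree G) {v : V} (hv : v ≠ R.root)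
    (hne : R.children v ≠ ∅) : ∃ c₁ c₂, c₁ ≠ c₂ ∧ R.children v = {c₁, c₂} := by
  rw [← Set.ncard_eq_two]
  have h := hT.2 v
  rw [R.ncard_neighborSet_of_ne hv] at h
  have : (R.children v).ncard ≠ 0 := by
    rw [Ne, Set.ncard_eq_zero]
    exact hne
  omega

lemma even_lengths [Finite V] (hT : IsOneThreeTree G) {v : V} (hv : v ≠ R.root) {x : ℕ}
    (hx : x ≤ R.md v) : LeafLen G (2 * x) := by
  rcases Nat.eq_zero_or_pos x with rfl | hpos
  · obtain ⟨k, y, h1, h2, -, -⟩ := R.exists_below hv
    exact R.leafLen_of_good (a := 0) (b := 0) h1 h2 h1 h2 ⟨by simp, by simp, by simp, by simp⟩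
  have hne : ({w | w ≠ R.root ∧ x ≤ R.md w} : Set V).Nonempty := ⟨v, hv, hx⟩
  obtain ⟨w, ⟨hw, hwx⟩, hmax⟩ := Set.exists_max_image _ R.dep (Set.toFinite _) hne
  have hch : R.children w ≠ ∅ := by
    intro h
    have := R.md_le (v := w) (k := 0) ⟨w, hw, h, by simp, rfl⟩
    omega
  obtain ⟨c₁, c₂, hc, hcc⟩ := R.two_children hT hw hch
  have key : ∀ c ∈ R.children w, R.Below c (x - 1) := by
    intro c hcw
    have h1 := R.md_le (Below.succ R (R.md_spec hcw.1) hcw)
    have h2 : R.md c < x := by
      by_contra hge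
      have := hmax c ⟨hcw.1, by omega⟩
      have e := R.dep_par c hcw.1
      rw [hcw.2] at e
      omega
    have : x - 1 = R.md c := by omega
    rw [this]
    exact R.md_spec hcw.1
  have m1 : c₁ ∈ R.children w := by rw [hcc]; simp
  have m2 : c₂ ∈ R.children w := by rw [hcc]; simp
  obtain ⟨y₁, a1, a2, a3, a4⟩ := key c₁ m1
  obtain ⟨y₂, b1, b2, b3, b4⟩ := key c₂ m2
  obtain ⟨x, rfl⟩ : ∃ x', x = x' + 1 := ⟨x - 1, by omega⟩
  simp only [Nat.add_sub_cancel] at a3 a4 b3 b4
  have e1 := R.dep_iter x y₁ a3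
  have e2 := R.dep_iter x y₂ b3
  rw [a4] at e1
  rw [b4] at e2
  have p1 := R.pos_of_ne_root m1.1
  have p2 := R.pos_of_ne_root m2.1
  rw [two_mul]
  refine R.leafLen_of_good a1 a2 b1 b2 ⟨by omega, by omega, ?_, ?_⟩
  · rw [Function.iterate_succ_apply', Function.iterate_succ_apply', a4, b4, m1.2, m2.2]
  · intro _ _
    simpa [a4, b4] using hc

lemma spine_lengths [Finite V] (hT : IsOneThreeTree G) {m L : ℕ} (hm : 0 < m)
    (hsmall : ∀ v, v ≠ R.root → R.md v < m) {z : V} (hz : L + 1 ≤ R.dep z) :
    ∃ a : ℕ → ℕ, (∀ i, a i < m) ∧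
      ∀ i j, i < j → j < L → LeafLen G (a i + a j + (j - i) + 2) := by
  have hc : ∀ i, ∃ c, i < L → c ∈ R.children (R.par^[i + 1] z) ∧ c ≠ R.par^[i] z := by
    intro i
    by_cases hi : i < L
    · have e1 := R.dep_iter i z (by omega)
      have e2 := R.dep_iter (i + 1) z (by omega)
      have hmem : R.par^[i] z ∈ R.children (R.par^[i + 1] z) :=
        ⟨R.ne_root_of_pos (by omega), by rw [Function.iterate_succ_apply']⟩
      obtain ⟨c₁, c₂, hne, hcc⟩ := R.two_children hT (v := R.par^[i + 1] z)
        (R.ne_root_of_pos (by omega)) (Set.nonempty_iff_ne_empty.1 ⟨_, hmem⟩)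
      by_cases h : c₁ = R.par^[i] z
      · exact ⟨c₂, fun _ => ⟨by rw [hcc]; simp, by rw [← h]; exact hne.symm⟩⟩
      · exact ⟨c₁, fun _ => ⟨by rw [hcc]; simp, h⟩⟩
    · exact ⟨z, fun h => absurd h hi⟩
  choose c hc using hc
  refine ⟨fun i => if i < L then R.md (c i) else 0, ?_, ?_⟩
  · intro i
    by_cases hi : i < L
    · simp only [if_pos hi]
      exact hsmall _ (hc i hi).1.1
    · simpa [if_neg hi] using hm
  · intro i j hij hj
    have hi : i < L := by omega
    simp only [if_pos hi, if_pos hj]
    obtain ⟨⟨ci1, ci2⟩, -⟩ := hc i hi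
    obtain ⟨⟨cj1, cj2⟩, cj3⟩ := hc j hj
    obtain ⟨x, a1, a2, a3, a4⟩ := R.md_spec ci1
    obtain ⟨y, b1, b2, b3, b4⟩ := R.md_spec cj1
    have e1 := R.dep_iter _ x a3
    have e2 := R.dep_iter _ y b3
    rw [a4] at e1
    rw [b4] at e2
    have d1 := R.dep_par _ ci1
    have d2 := R.dep_par _ cj1
    rw [ci2] at d1
    rw [cj2] at d2
    have f1 := R.dep_iter (i + 1) z (by omega)
    have f2 := R.dep_iter (j + 1) z (by omega)
    obtain ⟨k, rfl⟩ : ∃ k, j = k + (i + 1) := ⟨j - (i + 1), by omega⟩
    have hup : R.par^[k + (R.md (c i) + 1)] x = R.par^[k + (i + 1)] z := by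
      rw [Function.iterate_add_apply, Function.iterate_add_apply _ k,
        Function.iterate_succ_apply', a4, ci2]
    have hlen : R.md (c i) + R.md (c (k + (i + 1))) + (k + (i + 1) - i) + 2 =
        (k + (R.md (c i) + 1) + 1) + (R.md (c (k + (i + 1))) + 1) := by omega
    rw [hlen]
    refine R.leafLen_of_good a1 a2 b1 b2 ⟨by omega, by omega, ?_, ?_⟩
    · rw [Function.iterate_succ_apply', hup, Function.iterate_succ_apply' _ _ y, b4, cj2,
        Function.iterate_succ_apply']
    · intro _ _
      simp only [Nat.add_sub_cancel]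
      rw [hup, b4]
      exact cj3.symm

lemma card_le_of_dep_le [Fintype V] (hT : IsOneThreeTree G) (k : ℕ) :
    (Finset.univ.filter fun v => R.dep v ≤ k).card ≤ 4 ^ k := by
  classical
  induction k with
  | zero =>
    rw [pow_zero, Finset.card_le_one]
    intro a ha b hb
    simp only [Finset.mem_filter, Finset.mem_univ, true_and] at ha hb
    rw [R.eq_root_of_dep (v := a) (by omega), R.eq_root_of_dep (v := b) (by omega)]
  | succ k ih =>
    have hsub : (Finset.univ.filter fun v => R.dep v ≤ k + 1) ⊆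
        (Finset.univ.filter fun v => R.dep v ≤ k).biUnion
          (fun u => insert u (G.neighborSet u).toFinset) := by
      intro v hv
      simp only [Finset.mem_filter, Finset.mem_univ, true_and, Finset.mem_biUnion,
        Finset.mem_insert, Set.mem_toFinset, mem_neighborSet] at hv ⊢
      by_cases h : R.dep v ≤ k
      · exact ⟨v, h, Or.inl rfl⟩
      · have hne : v ≠ R.root := R.ne_root_of_pos (by omega)
        have := R.dep_par v hne
        exact ⟨R.par v, by omega, Or.inr (R.adj_par hne).symm⟩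
    refine (Finset.card_le_card hsub).trans ?_
    refine (Finset.card_biUnion_le_card_mul _ _ 4 ?_).trans ?_
    · intro u _
      refine (Finset.card_insert_le _ _).trans ?_
      have := hT.2 u
      rw [Set.ncard_eq_toFinset_card'] at this
      omega
    · rw [pow_succ]
      exact Nat.mul_le_mul_right _ ih

end Rooted

lemma tree_dichotomy {V : Type} [Fintype V] {T : SimpleGraph V} (hT : IsOneThreeTree T)
    (m L : ℕ) (hm : 0 < m) (hn : 4 ^ L < Fintype.card V) :
    (∀ x, x ≤ m → LeafLen T (2 * x)) ∨ ∃ a : ℕ → ℕ, (∀ i, a i < m) ∧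
      ∀ i j, i < j → j < L → LeafLen T (a i + a j + (j - i) + 2) := by
  obtain ⟨r⟩ := hT.1.connected.nonempty
  obtain ⟨R, -⟩ := exists_rooted hT.1 r
  by_cases h : ∃ v, v ≠ R.root ∧ m ≤ R.md v
  · obtain ⟨v, hv, hmv⟩ := h
    exact Or.inl fun x hx => R.even_lengths hT hv (hx.trans hmv)
  · right
    push Not at h
    have : ∃ z, L + 1 ≤ R.dep z := by
      by_contra hne
      push Not at hne
      have h1 := R.card_le_of_dep_le hT L
      rw [Finset.filter_true_of_mem (fun v _ => by have := hne v; omega), Finset.card_univ] at h1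
      omega
    obtain ⟨z, hz⟩ := this
    exact R.spine_lengths hT hm h hz

end Pool.Agent.P.MP_07218e_co
end
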