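import Mathlib
import Pool.Agent.P.MP_07218e_co.Defs
import Pool.Agent.K.MP_07218e_co.C0

-- part Pool.Agent.P.MP_07218e_co.Energy
section

namespace Pool.Agent.P.MP_07218e_co

open Finset

section Collisions

variable {α β δ κ : Type} [DecidableEq δ] [DecidableEq κ]

lemma card_filter_prod (A : Finset α) (B : Finset β) (P : α → β → Prop)
    [∀ a b, Decidable (P a b)] :
    ((A ×ˢ B).filter fun p => P p.1 p.2).card = ∑ a ∈ A, (B.filter fun b => P a b).card := by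
  simp only [card_filter, sum_product]

/-- The number of pairs in `A × B` with the same image. -/
def coll (A : Finset α) (B : Finset β) (φ : α → δ) (ψ : β → δ) : ℕ :=
  ((A ×ˢ B).filter fun p => φ p.1 = ψ p.2).card

lemma coll_eq_sum (A : Finset α) (B : Finset β) (φ : α → δ) (ψ : β → δ) (D : Finset δ)
    (hA : ∀ a ∈ A, φ a ∈ D) :
    coll A B φ ψ = ∑ d ∈ D, (A.filter fun a => φ a = d).card * (B.filter fun b => ψ b = d).card := by
  unfold coll
  rw [card_eq_sum_card_fiberwise (f := fun p : α × β => φ p.1) (t := D)]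
  · refine sum_congr rfl fun d _ => ?_
    rw [← card_product]
    congr 1
    ext ⟨a, b⟩
    simp only [mem_filter, mem_product]
    constructor
    · rintro ⟨⟨⟨ha, hb⟩, h1⟩, h2⟩
      exact ⟨⟨ha, h2⟩, hb, h1 ▸ h2⟩
    · rintro ⟨⟨ha, h1⟩, hb, h2⟩
      exact ⟨⟨⟨ha, hb⟩, h1.trans h2.symm⟩, h1⟩
  · intro p hp
    simp only [coe_filter, mem_product, Set.mem_ofPred_eq] at hp
    exact hA _ hp.1.1

lemma coll_sq_le (A : Finset α) (B : Finset β) (φ : α → δ) (ψ : β → δ) :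
    coll A B φ ψ ^ 2 ≤ coll A A φ φ * coll B B ψ ψ := by
  have hA : ∀ a ∈ A, φ a ∈ A.image φ ∪ B.image ψ := fun a ha =>
    mem_union_left _ (mem_image_of_mem _ ha)
  have hB : ∀ b ∈ B, ψ b ∈ A.image φ ∪ B.image ψ := fun b hb =>
    mem_union_right _ (mem_image_of_mem _ hb)
  rw [coll_eq_sum A B φ ψ _ hA, coll_eq_sum A A φ φ _ hA, coll_eq_sum B B ψ ψ _ hB]
  simp only [← sq]
  exact sum_mul_sq_le_sq_mul_sq _ _ _

lemma card_sq_le_coll (A : Finset α) (φ : α → δ) (D : Finset δ) (hA : ∀ a ∈ A, φ a ∈ D) :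
    A.card ^ 2 ≤ D.card * coll A A φ φ := by
  rw [coll_eq_sum A A φ φ D hA, card_eq_sum_card_fiberwise (f := φ) (t := D) hA]
  simp only [← sq]
  exact sq_sum_le_card_mul_sum_sq

lemma coll_le_windows (A : Finset α) (φ : α → δ) (ω : α → κ) (K : Finset κ)
    (hK : ∀ a ∈ A, ω a ∈ K) :
    coll A A φ φ ≤ K.card * coll A A (fun a => (φ a, ω a)) (fun a => (φ a, ω a)) := by
  have hA : ∀ a ∈ A, φ a ∈ A.image φ := fun a ha => mem_image_of_mem _ ha
  have e : coll A A (fun a => (φ a, ω a)) (fun a => (φ a, ω a)) =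
      ∑ d ∈ A.image φ, coll (A.filter fun a => φ a = d) (A.filter fun a => φ a = d) ω ω := by
    unfold coll
    rw [card_eq_sum_card_fiberwise (f := fun p : α × α => φ p.1) (t := A.image φ)]
    · refine sum_congr rfl fun d _ => ?_
      congr 1
      ext ⟨a, b⟩
      simp only [mem_filter, mem_product, Prod.mk.injEq]
      constructor
      · rintro ⟨⟨⟨ha, hb⟩, h1, h3⟩, h2⟩
        exact ⟨⟨⟨ha, h2⟩, hb, h1 ▸ h2⟩, h3⟩
      · rintro ⟨⟨⟨ha, h1⟩, hb, h2⟩, h3⟩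
        exact ⟨⟨⟨ha, hb⟩, h1.trans h2.symm, h3⟩, h1⟩
    · intro p hp
      simp only [coe_filter, mem_product, Set.mem_ofPred_eq] at hp
      exact hA _ hp.1.1
  rw [e, coll_eq_sum A A φ φ _ hA, mul_sum]
  refine sum_le_sum fun d _ => ?_
  rw [← sq]
  exact card_sq_le_coll _ ω K fun a ha => hK a (mem_filter.1 ha).1

end Collisions

/-- Ordered pairs of elements of `Z`. -/
def upPairs (Z : Finset ℤ) : Finset (ℤ × ℤ) := (Z ×ˢ Z).filter fun p => p.1 ≤ p.2

lemma mem_upPairs {Z : Finset ℤ} {p : ℤ × ℤ} : p ∈ upPairs Z ↔ p.1 ∈ Z ∧ p.2 ∈ Z ∧ p.1 ≤ p.2 := by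
  simp only [upPairs, mem_filter, mem_product, and_assoc]

lemma sums_le_energy (X Y S : Finset ℤ) (hS : ∀ x ∈ X, ∀ y ∈ Y, x + y ∈ S) :
    (X.card * Y.card) ^ 2 ≤
      2 * S.card * coll (upPairs X) (upPairs Y) (fun p => p.2 - p.1) (fun p => p.2 - p.1) := by
  have h1 := card_sq_le_coll (X ×ˢ Y) (fun p => p.1 + p.2) S fun p hp =>
    hS _ (mem_product.1 hp).1 _ (mem_product.1 hp).2
  rw [card_product] at h1
  refine h1.trans ?_
  rw [mul_comm 2, mul_assoc]
  refine Nat.mul_le_mul_left _ ?_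
  unfold coll
  set T := ((X ×ˢ Y) ×ˢ (X ×ˢ Y)).filter
    fun p : (ℤ × ℤ) × (ℤ × ℤ) => p.1.1 + p.1.2 = p.2.1 + p.2.2 with hT
  rw [← card_filter_add_card_filter_not (s := T) (fun p => p.2.1 ≤ p.1.1), two_mul]
  refine add_le_add ?_ ?_
  · refine card_le_card_of_injOn (fun p => ((p.2.1, p.1.1), (p.1.2, p.2.2))) ?_ ?_
    · rintro ⟨⟨x, y⟩, u, v⟩ hp
      simp only [hT, coe_filter, mem_filter, mem_product, Set.mem_ofPred_eq, mem_upPairs] at hp ⊢
      obtain ⟨⟨⟨⟨hx, hy⟩, hu, hv⟩, h2⟩, h3⟩ := hp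
      exact ⟨⟨⟨hu, hx, h3⟩, hy, hv, by omega⟩, by omega⟩
    · rintro ⟨⟨x, y⟩, u, v⟩ - ⟨⟨x', y'⟩, u', v'⟩ - h
      simp only [Prod.mk.injEq] at h ⊢
      tauto
  · refine card_le_card_of_injOn (fun p => ((p.1.1, p.2.1), (p.2.2, p.1.2))) ?_ ?_
    · rintro ⟨⟨x, y⟩, u, v⟩ hp
      simp only [hT, coe_filter, mem_filter, mem_product, Set.mem_ofPred_eq, mem_upPairs] at hp ⊢
      obtain ⟨⟨⟨⟨hx, hy⟩, hu, hv⟩, h2⟩, h3⟩ := hp
      exact ⟨⟨⟨hx, hu, by omega⟩, hv, hy, by omega⟩, by omega⟩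
    · rintro ⟨⟨x, y⟩, u, v⟩ - ⟨⟨x', y'⟩, u', v'⟩ - h
      simp only [Prod.mk.injEq] at h ⊢
      tauto

section Side

variable (U : Finset ℕ) (f g : ℕ → ℤ) (m μ : ℕ) (S Z : Finset ℤ)

lemma density
    (h5 : ∀ (t : ℤ) (k : ℕ), (U.filter fun i => t ≤ f i ∧ f i < t + k).card ≤ k + m)
    (hZ : ∀ z ∈ Z, μ ≤ (U.filter fun i => f i = z).card) (t : ℤ) (k : ℕ) :
    μ * (Z.filter fun z => t ≤ z ∧ z < t + k).card ≤ k + m := by
  refine le_trans ?_ (h5 t k)
  refine (mul_card_image_le_card_of_maps_to (f := f)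
    (s := U.filter fun i => f i ∈ Z.filter fun z => t ≤ z ∧ z < t + k)
    (fun a ha => (mem_filter.1 ha).2) μ ?_).trans (card_le_card ?_)
  · intro b hb
    refine (hZ b (mem_filter.1 hb).1).trans (card_le_card ?_)
    intro i hi
    rw [mem_filter] at hi
    rw [mem_filter, mem_filter]
    exact ⟨⟨hi.1, hi.2 ▸ hb⟩, hi.2⟩
  · intro i hi
    simp only [mem_filter] at hi ⊢
    exact ⟨hi.1, hi.2.2⟩

lemma near_bound (hm : 0 < m) (hμ : 0 < μ)
    (h1 : ∀ i ∈ U, ∀ j ∈ U, g i - f i = g j - f j → i = j)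
    (h2 : ∀ i ∈ U, 0 ≤ f i + g i ∧ f i + g i < 2 * m)
    (h3 : ∀ i ∈ U, ∀ j ∈ U, f i + m ≤ f j → g i + f j ∈ S)
    (h5 : ∀ (t : ℤ) (k : ℕ), (U.filter fun i => t ≤ f i ∧ f i < t + k).card ≤ k + m)
    (hZ : ∀ z ∈ Z, μ ≤ (U.filter fun i => f i = z).card) :
    μ ^ 2 * coll (upPairs Z) (upPairs Z) (fun p => (p.2 - p.1, p.1 / (m : ℤ)))
      (fun p => (p.2 - p.1, p.1 / (m : ℤ))) ≤ 7 * m * ((S.card + 4 * m) * Z.card) := by
  unfold coll
  set Q := (upPairs Z ×ˢ upPairs Z).filter fun p : (ℤ × ℤ) × (ℤ × ℤ) =>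
    (p.1.2 - p.1.1, p.1.1 / (m : ℤ)) = (p.2.2 - p.2.1, p.2.1 / (m : ℤ)) with hQ
  set S' : Finset ℤ := S ∪ Ico (-(m : ℤ)) (3 * m) with hS'
  have hS'c : S'.card ≤ S.card + 4 * m := by
    refine (card_union_le _ _).trans ?_
    rw [Int.card_Ico]
    omega
  have hQmem : ∀ y v y' v' : ℤ, ((y, v), (y', v')) ∈ Q → y ∈ Z ∧ v ∈ Z ∧ y' ∈ Z ∧ v' ∈ Z ∧
      y ≤ v ∧ v - y = v' - y' ∧ y - y' < m ∧ y' - y < m := by
    intro y v y' v' h
    simp only [hQ, mem_filter, mem_product, mem_upPairs, Prod.mk.injEq] at h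
    obtain ⟨⟨⟨a1, a2, a3⟩, a4, a5, -⟩, a7, a8⟩ := h
    have hm' : (0 : ℤ) < m := by exact_mod_cast hm
    have e1 := Int.mul_ediv_add_emod y m
    have e2 := Int.mul_ediv_add_emod y' m
    have e3 := Int.emod_nonneg y hm'.ne'
    have e4 := Int.emod_nonneg y' hm'.ne'
    have e5 := Int.emod_lt_of_pos y hm'
    have e6 := Int.emod_lt_of_pos y' hm'
    rw [a8] at e1
    exact ⟨a1, a2, a4, a5, a3, a7, by omega, by omega⟩
  have k1 : μ * Q.card ≤ ((Q ×ˢ U).filter fun r => f r.2 = r.1.1.1).card := by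
    rw [card_filter_prod Q U fun q i => f i = q.1.1, mul_comm, ← smul_eq_mul, ← sum_const]
    refine sum_le_sum ?_
    rintro ⟨⟨y, v⟩, y', v'⟩ hq
    exact hZ y (hQmem y v y' v' hq).1
  have k2 : ((Q ×ˢ U).filter fun r => f r.2 = r.1.1.1).card ≤
      (((S' ×ˢ Z) ×ˢ Z).filter fun r : (ℤ × ℤ) × ℤ => r.1.1 + r.1.2 - 4 * m ≤ r.2 ∧
        r.2 < r.1.1 + r.1.2 - 4 * m + ((6 * m : ℕ) : ℤ)).card := by
    refine card_le_card_of_injOn (fun r => ((g r.2 + r.1.2.2, r.1.2.1), r.1.1.2)) ?_ ?_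
    · rintro ⟨⟨⟨y, v⟩, y', v'⟩, i⟩ hr
      simp only [coe_filter, mem_product, Set.mem_ofPred_eq] at hr ⊢
      obtain ⟨⟨hq, hi⟩, hfi⟩ := hr
      obtain ⟨a1, a2, a3, a4, a5, a6, a7, a8⟩ := hQmem y v y' v' hq
      obtain ⟨b1, b2⟩ := h2 i hi
      refine ⟨⟨⟨?_, a3⟩, a2⟩, by omega, by push_cast; omega⟩
      by_cases hc : f i + m ≤ v'
      · obtain ⟨j, hj⟩ := card_pos.1 (hμ.trans_le (hZ v' a4))
        rw [mem_filter] at hj
        refine mem_union_left _ ?_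
        rw [← hj.2] at hc ⊢
        exact h3 i hi j hj.1 hc
      · refine mem_union_right _ ?_
        rw [mem_Ico]
        constructor <;> omega
    · rintro ⟨⟨⟨y, v⟩, y', v'⟩, i⟩ hr ⟨⟨⟨z, w⟩, z', w'⟩, j⟩ hs h
      simp only [coe_filter, mem_product, Set.mem_ofPred_eq, Prod.mk.injEq] at hr hs h ⊢
      obtain ⟨⟨hq, hi⟩, hfi⟩ := hr
      obtain ⟨⟨hq', hj⟩, hfj⟩ := hs
      obtain ⟨-, -, -, -, -, a6, -, -⟩ := hQmem y v y' v' hq
      obtain ⟨-, -, -, -, -, b6, -, -⟩ := hQmem z w z' w' hq'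
      obtain ⟨⟨c1, c2⟩, c3⟩ := h
      have hij : i = j := h1 i hi j hj (by omega)
      subst hij
      exact ⟨⟨⟨by omega, c3⟩, c2, by omega⟩, rfl⟩
  have k3 : μ * (((S' ×ˢ Z) ×ˢ Z).filter fun r : (ℤ × ℤ) × ℤ => r.1.1 + r.1.2 - 4 * m ≤ r.2 ∧
        r.2 < r.1.1 + r.1.2 - 4 * m + ((6 * m : ℕ) : ℤ)).card ≤ 7 * m * (S'.card * Z.card) := by
    rw [card_filter_prod (S' ×ˢ Z) Z fun p v => p.1 + p.2 - 4 * m ≤ v ∧
      v < p.1 + p.2 - 4 * m + ((6 * m : ℕ) : ℤ), mul_sum, ← card_product, mul_comm (7 * m),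
      ← smul_eq_mul (S' ×ˢ Z).card]
    refine sum_le_card_nsmul _ _ _ fun p _ => ?_
    have := density U f m μ Z h5 hZ (p.1 + p.2 - 4 * m) (6 * m)
    omega
  calc μ ^ 2 * Q.card = μ * (μ * Q.card) := by ring
    _ ≤ _ := Nat.mul_le_mul_left _ (k1.trans k2)
    _ ≤ _ := k3
    _ ≤ _ := by gcongr

lemma energy_bound (hm : 0 < m) (hμ : 0 < μ) (K : Finset ℤ)
    (h1 : ∀ i ∈ U, ∀ j ∈ U, g i - f i = g j - f j → i = j)
    (h2 : ∀ i ∈ U, 0 ≤ f i + g i ∧ f i + g i < 2 * m)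
    (h3 : ∀ i ∈ U, ∀ j ∈ U, f i + m ≤ f j → g i + f j ∈ S)
    (h5 : ∀ (t : ℤ) (k : ℕ), (U.filter fun i => t ≤ f i ∧ f i < t + k).card ≤ k + m)
    (h6 : ∀ z ∈ Z, z / (m : ℤ) ∈ K)
    (hZ : ∀ z ∈ Z, μ ≤ (U.filter fun i => f i = z).card) :
    μ ^ 2 * coll (upPairs Z) (upPairs Z) (fun p => p.2 - p.1) (fun p => p.2 - p.1) ≤
      K.card * (7 * m * ((S.card + 4 * m) * Z.card)) := by
  have a := coll_le_windows (upPairs Z) (fun p => p.2 - p.1) (fun p => p.1 / (m : ℤ)) K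
    fun p hp => h6 _ (mem_upPairs.1 hp).1
  have b := near_bound U f g m μ S Z hm hμ h1 h2 h3 h5 hZ
  calc _ ≤ μ ^ 2 * (K.card * _) := Nat.mul_le_mul_left _ a
    _ = K.card * (μ ^ 2 * _) := by ring
    _ ≤ _ := Nat.mul_le_mul_left _ b

end Side

end Pool.Agent.P.MP_07218e_co
end

-- part Pool.Agent.P.MP_07218e_co.Sequence45
section

namespace Pool.Agent.P.MP_07218e_co

open Finset

lemma exists_cut (J : Finset ℕ) (k : ℕ) (hk : k ≤ J.card) :
    ∃ t, (J.filter fun j => j < t).card = k := by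
  have hex : ∃ t, k ≤ (J.filter fun j => j < t).card := by
    refine ⟨J.sup id + 1, ?_⟩
    rw [filter_true_of_mem]
    · exact hk
    · intro j hj
      exact Nat.lt_succ_of_le (le_sup (f := id) hj)
  classical
  refine ⟨Nat.find hex, le_antisymm ?_ (Nat.find_spec hex)⟩
  rcases h : Nat.find hex with _ | t
  · simp
  · have h1 := Nat.find_min hex (m := t) (by omega)
    have h2 : (J.filter fun j => j < t + 1) ⊆ insert t (J.filter fun j => j < t) := by
      intro j hj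
      simp only [mem_filter, mem_insert] at hj ⊢
      rcases Nat.lt_succ_iff_lt_or_eq.1 hj.2 with h | h
      · exact Or.inr ⟨hj.1, h⟩
      · exact Or.inl h
    have h3 := (card_le_card h2).trans (card_insert_le _ _)
    omega

lemma final_arith {X Y EX EY C S s μ ν h J L K m W : ℕ} (hW : 0 < W) (hL : L = W * m)
    (hs : S ≤ s) (hs0 : 0 < s) (hm : 0 < m) (hK : 0 < K)
    (a1 : (X * Y) ^ 2 ≤ 2 * S * C) (a2 : C ^ 2 ≤ EX * EY)
    (a3 : ν ^ 2 * EX ≤ (W + 1) * (7 * m * (s * X)))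
    (a4 : μ ^ 2 * EY ≤ (W + 1) * (7 * m * (s * Y)))
    (a5 : h ≤ 2 * μ * Y) (a6 : h ≤ 2 * ν * X) (a7 : μ * ν * J ≤ 3 * m * L)
    (a8 : J ≤ 2 * h + 1) (a9 : L ≤ J * (K * K)) :
    L ^ 4 ≤ 2 ^ 27 * K ^ 14 * m * s ^ 4 := by
  have hL0 : 0 < L := by rw [hL]; positivity
  rcases Nat.eq_zero_or_pos h with rfl | hh
  · have b1 : L ≤ K * K := a9.trans (by nlinarith)
    calc L ^ 4 ≤ (K * K) ^ 4 := by gcongr
      _ = 1 * K ^ 8 * 1 * 1 := by ring
      _ ≤ 2 ^ 27 * K ^ 14 * m * s ^ 4 := by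
        gcongr
        · norm_num
        · norm_num
        · exact hm
        · exact Nat.one_le_pow _ _ hs0
  have hX : 0 < X := Nat.pos_of_ne_zero (by rintro rfl; omega)
  have hY : 0 < Y := Nat.pos_of_ne_zero (by rintro rfl; omega)
  have hWL : (W + 1) * m ≤ 2 * L := by rw [hL]; nlinarith
  have b1 : (X * Y) ^ 3 * (μ * ν) ^ 2 * (X * Y) ≤ 196 * s ^ 4 * (2 * L) ^ 2 * (X * Y) := by
    calc (X * Y) ^ 3 * (μ * ν) ^ 2 * (X * Y) = ((X * Y) ^ 2) ^ 2 * (μ * ν) ^ 2 := by ring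
      _ ≤ (2 * s * C) ^ 2 * (μ * ν) ^ 2 := by
        gcongr
        exact a1.trans (by gcongr)
      _ = 4 * s ^ 2 * (μ * ν) ^ 2 * C ^ 2 := by ring
      _ ≤ 4 * s ^ 2 * (μ * ν) ^ 2 * (EX * EY) := by gcongr
      _ = 4 * s ^ 2 * ((ν ^ 2 * EX) * (μ ^ 2 * EY)) := by ring
      _ ≤ 4 * s ^ 2 * (((W + 1) * (7 * m * (s * X))) * ((W + 1) * (7 * m * (s * Y)))) := by gcongr
      _ = 196 * s ^ 4 * ((W + 1) * m) ^ 2 * (X * Y) := by ring
      _ ≤ _ := by gcongr
  have b2 := Nat.le_of_mul_le_mul_right b1 (by positivity)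
  have b3 : h ^ 6 * J ≤ 64 * 196 * 12 * m * L ^ 3 * s ^ 4 := by
    calc h ^ 6 * J = (h * h) ^ 3 * J := by ring
      _ ≤ ((2 * μ * Y) * (2 * ν * X)) ^ 3 * J := by gcongr
      _ = 64 * ((X * Y) ^ 3 * (μ * ν) ^ 2) * (μ * ν * J) := by ring
      _ ≤ 64 * (196 * s ^ 4 * (2 * L) ^ 2) * (3 * m * L) := by gcongr
      _ = _ := by ring
  have b4 : J ≤ 3 * h := by omega
  have b5 : L ^ 4 * L ^ 3 ≤ 2 ^ 27 * K ^ 14 * m * s ^ 4 * L ^ 3 := by
    calc L ^ 4 * L ^ 3 = L ^ 7 := by ring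
      _ ≤ (J * (K * K)) ^ 7 := by gcongr
      _ = K ^ 14 * (J ^ 6 * J) := by ring
      _ ≤ K ^ 14 * ((3 * h) ^ 6 * J) := by gcongr
      _ = 729 * K ^ 14 * (h ^ 6 * J) := by ring
      _ ≤ 729 * K ^ 14 * (64 * 196 * 12 * m * L ^ 3 * s ^ 4) := by gcongr
      _ = 109734912 * (K ^ 14 * m * s ^ 4 * L ^ 3) := by ring
      _ ≤ 2 ^ 27 * (K ^ 14 * m * s ^ 4 * L ^ 3) := by gcongr; norm_num
      _ = _ := by ring
  exact Nat.le_of_mul_le_mul_right b5 (by positivity)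

lemma card_le_of_interval (A : Finset ℕ) (s : ℤ) (n : ℕ) (h : ∀ i ∈ A, s ≤ i ∧ (i : ℤ) < s + n) :
    A.card ≤ n := by
  have : A.card ≤ (Ico s (s + n)).card :=
    card_le_card_of_injOn (fun i => (i : ℤ)) (fun i hi => by simpa using h i hi)
      (fun i _ j _ e => by simpa using e)
  simpa using this

theorem sequence_energy (m W : ℕ) (hm : 0 < m) (hW : 0 < W) (a : ℕ → ℕ) (ha : ∀ i, a i < m)
    (S : Finset ℤ) (hS : ∀ i j : ℕ, i < j → j < W * m → (a i : ℤ) + a j + (j - i) ∈ S) :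
    (W * m) ^ 4 ≤ 2 ^ 27 * (Nat.log 2 (m + 1) + 1) ^ 14 * m * (S.card + 4 * m) ^ 4 := by
  set U := range (W * m) with hU
  set x : ℕ → ℤ := fun i => a i + i with hx
  set y : ℕ → ℤ := fun i => a i - i with hy
  set K := Nat.log 2 (m + 1) + 1 with hK
  have hm' : (0 : ℤ) < m := by exact_mod_cast hm
  have h5x : ∀ (t : ℤ) (k : ℕ), (U.filter fun i => t ≤ x i ∧ x i < t + k).card ≤ k + m := by
    intro t k
    refine card_le_of_interval _ (t - m) _ fun i hi => ?_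
    have := ha i
    have h := (mem_filter.1 hi).2
    simp only [hx] at h
    push_cast
    constructor <;> omega
  have h5y : ∀ (t : ℤ) (k : ℕ), (U.filter fun i => t ≤ y i ∧ y i < t + k).card ≤ k + m := by
    intro t k
    refine card_le_of_interval _ (-t - k) _ fun i hi => ?_
    have := ha i
    have h := (mem_filter.1 hi).2
    simp only [hy] at h
    push_cast
    constructor <;> omega
  have hmult : ∀ f : ℕ → ℤ,
      (∀ (t : ℤ) (k : ℕ), (U.filter fun i => t ≤ f i ∧ f i < t + k).card ≤ k + m) → ∀ j ∈ U,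
      0 < (U.filter fun i => f i = f j).card ∧
        Nat.log 2 (U.filter fun i => f i = f j).card < K := by
    intro f h5 j hj
    refine ⟨card_pos.2 ⟨j, mem_filter.2 ⟨hj, rfl⟩⟩, Nat.lt_succ_of_le (Nat.log_mono_right ?_)⟩
    refine (card_le_card ?_).trans ((h5 (f j) 1).trans (by omega))
    intro i hi
    simp only [mem_filter] at hi ⊢
    exact ⟨hi.1, by omega, by omega⟩
  set c : ℕ → ℕ × ℕ := fun j => (Nat.log 2 (U.filter fun i => y i = y j).card,
    Nat.log 2 (U.filter fun i => x i = x j).card) with hc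
  obtain ⟨⟨r, t⟩, -, hmax⟩ := exists_max_image (range K ×ˢ range K)
    (fun p => (U.filter fun j => c j = p).card) ⟨(0, 0), by simp [hK]⟩
  set J := U.filter fun j => c j = (r, t) with hJ
  have a9 : W * m ≤ J.card * (K * K) := by
    have := card_le_mul_card_image_of_maps_to (s := U) (f := c) (t := range K ×ˢ range K)
      (fun j hj => mem_product.2
        ⟨mem_range.2 (hmult y h5y j hj).2, mem_range.2 (hmult x h5x j hj).2⟩) J.card hmax
    simpa [hU] using this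
  have hJU : ∀ j ∈ J, j ∈ U := fun j hj => (mem_filter.1 hj).1
  have hJy : ∀ j ∈ J, 2 ^ r ≤ (U.filter fun i => y i = y j).card ∧
      (U.filter fun i => y i = y j).card ≤ 2 * 2 ^ r := by
    intro j hj
    have e : Nat.log 2 (U.filter fun i => y i = y j).card = r :=
      congrArg Prod.fst (mem_filter.1 hj).2
    rw [← e]
    refine ⟨Nat.pow_log_le_self 2 (hmult y h5y j (hJU j hj)).1.ne', ?_⟩
    rw [← pow_succ']
    exact (Nat.lt_pow_succ_log_self (by norm_num) _).le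
  have hJx : ∀ j ∈ J, 2 ^ t ≤ (U.filter fun i => x i = x j).card ∧
      (U.filter fun i => x i = x j).card ≤ 2 * 2 ^ t := by
    intro j hj
    have e : Nat.log 2 (U.filter fun i => x i = x j).card = t :=
      congrArg Prod.snd (mem_filter.1 hj).2
    rw [← e]
    refine ⟨Nat.pow_log_le_self 2 (hmult x h5x j (hJU j hj)).1.ne', ?_⟩
    rw [← pow_succ']
    exact (Nat.lt_pow_succ_log_self (by norm_num) _).le
  have himg : ∀ (f : ℕ → ℤ) (μ : ℕ) (A : Finset ℕ), A ⊆ J →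
      (∀ j ∈ J, μ ≤ (U.filter fun i => f i = f j).card ∧
        (U.filter fun i => f i = f j).card ≤ 2 * μ) →
      (∀ z ∈ A.image f, μ ≤ (U.filter fun i => f i = z).card) ∧
        A.card ≤ 2 * μ * (A.image f).card := by
    intro f μ A hA h
    refine ⟨fun z hz => ?_, card_le_mul_card_image A _ fun z hz => ?_⟩
    · obtain ⟨j, hj, rfl⟩ := mem_image.1 hz
      exact (h j (hA hj)).1
    · obtain ⟨j, hj, rfl⟩ := mem_image.1 hz
      exact (card_le_card (filter_subset_filter _ fun i hi => hJU i (hA hi))).trans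
        (h j (hA hj)).2
  have a7 : 2 ^ r * 2 ^ t * J.card ≤ 3 * m * (W * m) := by
    have b1 : 2 ^ r * (J.image y).card ≤ W * m := by
      refine (mul_card_image_le_card_of_maps_to (f := y)
        (s := U.filter fun i => y i ∈ J.image y) (fun i hi => (mem_filter.1 hi).2) _ ?_).trans ?_
      · intro z hz
        refine ((himg y _ J Subset.rfl hJy).1 z hz).trans (card_le_card ?_)
        intro i hi
        rw [mem_filter] at hi
        rw [mem_filter, mem_filter]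
        exact ⟨⟨hi.1, hi.2 ▸ hz⟩, hi.2⟩
      · exact (card_filter_le _ _).trans (by simp [hU])
    have b2 : 2 ^ t * J.card ≤ (J.image y).card * (3 * m) := by
      rw [card_eq_sum_card_image y J, mul_sum, ← smul_eq_mul (J.image y).card]
      refine sum_le_card_nsmul _ _ _ fun z _ => ?_
      have d := density U x m (2 ^ t) (J.image x) h5x (himg x _ J Subset.rfl hJx).1 (-z) (2 * m)
      refine le_trans (Nat.mul_le_mul_left _ ?_) (d.trans (by omega))
      refine card_le_card_of_injOn x ?_ ?_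
      · intro j hj
        simp only [coe_filter, Set.mem_ofPred_eq] at hj ⊢
        have := ha j
        have e := hj.2
        refine ⟨mem_image_of_mem _ hj.1, ?_⟩
        simp only [hx, hy] at e ⊢
        push_cast
        constructor <;> omega
      · intro i hi j hj e
        simp only [coe_filter, Set.mem_ofPred_eq] at hi hj
        have e1 := hi.2
        have e2 := hj.2
        simp only [hx, hy] at e e1 e2
        omega
    calc 2 ^ r * 2 ^ t * J.card = 2 ^ r * (2 ^ t * J.card) := by ring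
      _ ≤ 2 ^ r * ((J.image y).card * (3 * m)) := by gcongr
      _ = 3 * m * (2 ^ r * (J.image y).card) := by ring
      _ ≤ _ := by gcongr
  obtain ⟨t₀, ht₀⟩ := exists_cut J (J.card / 2) (Nat.div_le_self _ _)
  set J₁ := J.filter fun j => j < t₀ with hJ₁
  set J₂ := J.filter fun j => ¬ j < t₀ with hJ₂
  have hsum : J₁.card + J₂.card = J.card := card_filter_add_card_filter_not _
  obtain ⟨hY1, hY2⟩ := himg y _ J₁ (filter_subset _ _) hJy
  obtain ⟨hX1, hX2⟩ := himg x _ J₂ (filter_subset _ _) hJx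
  have a1 := sums_le_energy (J₂.image x) (J₁.image y) S (by
    intro u hu v hv
    obtain ⟨l, hl, rfl⟩ := mem_image.1 hu
    obtain ⟨j, hj, rfl⟩ := mem_image.1 hv
    rw [mem_filter] at hl hj
    have e : x l + y j = (a j : ℤ) + a l + (l - j) := by simp only [hx, hy]; ring
    rw [e]
    exact hS j l (by omega) (mem_range.1 (hJU l hl.1)))
  have a3 := energy_bound U x y m (2 ^ t) S (J₂.image x) hm (by positivity) (Ico 0 (W + 1))
    (fun i _ j _ e => by simp only [hx, hy] at e; omega)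
    (fun i _ => by have := ha i; simp only [hx, hy]; constructor <;> omega)
    (fun i _ j hj h => by
      have := ha j
      have e : y i + x j = (a i : ℤ) + a j + (j - i) := by simp only [hx, hy]; ring
      rw [e]
      simp only [hx] at h
      exact hS i j (by omega) (mem_range.1 hj))
    h5x
    (fun z hz => by
      obtain ⟨l, hl, rfl⟩ := mem_image.1 hz
      have h1 : ((l : ℕ) : ℤ) < W * m := by
        exact_mod_cast mem_range.1 (hJU l (mem_filter.1 hl).1)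
      have h2 := ha l
      rw [mem_Ico, Int.le_ediv_iff_mul_le hm', Int.ediv_lt_iff_lt_mul hm', add_mul]
      simp only [hx]
      constructor <;> omega)
    hX1
  have a4 := energy_bound U y x m (2 ^ r) S (J₁.image y) hm (by positivity) (Ico (-W) 1)
    (fun i _ j _ e => by simp only [hx, hy] at e; omega)
    (fun i _ => by have := ha i; simp only [hx, hy]; constructor <;> omega)
    (fun i hi j _ h => by
      have := ha j
      have e : x i + y j = (a j : ℤ) + a i + (i - j) := by simp only [hx, hy]; ring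
      rw [e]
      simp only [hy] at h
      exact hS j i (by omega) (mem_range.1 hi))
    h5y
    (fun z hz => by
      obtain ⟨l, hl, rfl⟩ := mem_image.1 hz
      have h1 : ((l : ℕ) : ℤ) < W * m := by
        exact_mod_cast mem_range.1 (hJU l (mem_filter.1 hl).1)
      have h2 := ha l
      rw [mem_Ico, Int.le_ediv_iff_mul_le hm', Int.ediv_lt_iff_lt_mul hm', neg_mul]
      simp only [hy]
      constructor <;> omega)
    hY1
  have c3 : (Ico (0 : ℤ) (W + 1)).card = W + 1 := by rw [Int.card_Ico]; omega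
  have c4 : (Ico (-W : ℤ) 1).card = W + 1 := by rw [Int.card_Ico]; omega
  rw [c3] at a3
  rw [c4] at a4
  exact final_arith (h := J.card / 2) hW rfl (Nat.le_add_right _ _) (by omega) hm (by omega) a1
    (coll_sq_le _ _ _ _) a3 a4 (by omega) (by omega) a7 (by omega) a9

end Pool.Agent.P.MP_07218e_co
end

-- part Pool.Agent.P.MP_07218e_co.Lower45
section

namespace Pool.Agent.P.MP_07218e_co

open Finset

lemma log_two_bound {k N : ℕ} (hk : k ≠ 0) (hkN : k ≤ N) {ε : ℝ} (hε : 0 < ε) :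
    ((Nat.log 2 k + 1 : ℕ) : ℝ) ≤ (2 / ε + 1) * (N : ℝ) ^ ε := by
  have hN1 : (1 : ℝ) ≤ N := by exact_mod_cast (Nat.pos_of_ne_zero hk).trans_le hkN
  have h1 : (2 : ℝ) ^ Nat.log 2 k ≤ N := by
    exact_mod_cast (Nat.pow_log_le_self 2 hk).trans hkN
  have h2 : (Nat.log 2 k : ℝ) * Real.log 2 ≤ Real.log N := by
    rw [← Real.log_pow]
    exact Real.log_le_log (by positivity) h1
  have h3 := Real.log_le_rpow_div (x := (N : ℝ)) (by linarith) hε
  have h4 : (1 / 2 : ℝ) ≤ Real.log 2 := by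
    have := Real.log_two_gt_d9
    linarith
  have h5 : (1 : ℝ) ≤ (N : ℝ) ^ ε := Real.one_le_rpow hN1 hε.le
  have h6 : (Nat.log 2 k : ℝ) * (1 / 2) ≤ (Nat.log 2 k : ℝ) * Real.log 2 := by gcongr
  have h7 : (2 / ε + 1) * (N : ℝ) ^ ε = 2 * ((N : ℝ) ^ ε / ε) + (N : ℝ) ^ ε := by ring
  push_cast
  linarith

lemma propertyP_of_lt45 {c : ℝ} (hc0 : 0 < c) (hc : c < 4 / 5) : PropertyP c := by
  set ε : ℝ := (4 - 5 * c) / 28 with hεdef
  have hε : 0 < ε := by rw [hεdef]; linarith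
  set C : ℝ := 81 * 2 ^ 27 * 625 * 32 * (2 / ε + 1) ^ 14 with hC
  have ev1 : ∀ᶠ N : ℕ in Filter.atTop, (8 : ℝ) ≤ (N : ℝ) ^ (1 - c) :=
    ((tendsto_rpow_atTop (by linarith : 0 < 1 - c)).comp
      tendsto_natCast_atTop_atTop).eventually_ge_atTop 8
  have ev2 : ∀ᶠ N : ℕ in Filter.atTop, C < (N : ℝ) ^ (14 * ε) :=
    ((tendsto_rpow_atTop (by linarith : 0 < 14 * ε)).comp
      tendsto_natCast_atTop_atTop).eventually_gt_atTop C
  obtain ⟨N₀, hN₀⟩ := Filter.eventually_atTop.1 (ev1.and ev2)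
  have hN₀0 : (0 : ℝ) ≤ N₀ := by positivity
  refine ⟨1 / ((N₀ : ℝ) + 1), by positivity, fun N hN => ?_⟩
  have hN1 : (1 : ℝ) ≤ N := by exact_mod_cast hN
  have hNc : (1 : ℝ) ≤ (N : ℝ) ^ c := Real.one_le_rpow hN1 hc0.le
  set m : ℕ := ⌈(N : ℝ) ^ c⌉₊ with hm
  have hmpos : 0 < m := Nat.one_le_ceil_iff.2 (by linarith)
  have hm1 : (N : ℝ) ^ c ≤ m := Nat.le_ceil _
  have hm2 : (m : ℝ) ≤ 2 * (N : ℝ) ^ c := by
    have := Nat.ceil_lt_add_one (a := (N : ℝ) ^ c) (by linarith)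
    rw [hm]
    linarith
  set W : ℕ := N / m - 2 with hW
  refine ⟨4 ^ (W * m + 2) + 1, fun n' hn' _ T hT => ?_⟩
  have hdich := tree_dichotomy hT m (W * m + 2) hmpos (by simpa using hn')
  have hfin : (leafLengths T N).Finite := (Set.finite_Iic N).subset fun _ h => h.1
  rw [one_div, inv_mul_le_iff₀ (by positivity)]
  rcases lt_or_ge N N₀ with hlt | hge
  · have hz : LeafLen T 0 := by
      rcases hdich with h | ⟨a, -, h⟩
      · exact h 0 (by omega)
      · obtain ⟨u, -, hu, -⟩ := h 0 1 (by omega) (by omega)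
        exact ⟨u, u, hu, hu, SimpleGraph.Walk.nil, SimpleGraph.Walk.IsPath.nil, rfl⟩
    have h1 : 1 ≤ (leafLengths T N).ncard := (Set.ncard_pos hfin).2 ⟨0, by omega, hz⟩
    have h1' : (1 : ℝ) ≤ (leafLengths T N).ncard := by exact_mod_cast h1
    have h2 : (N : ℝ) ^ c ≤ N := by
      calc (N : ℝ) ^ c ≤ (N : ℝ) ^ (1 : ℝ) := Real.rpow_le_rpow_of_exponent_le hN1 (by linarith)
        _ = N := Real.rpow_one _
    have h3 : (N : ℝ) ≤ N₀ := by exact_mod_cast hlt.le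
    nlinarith
  obtain ⟨e1, e2⟩ := hN₀ N hge
  have hA0 : (0 : ℝ) ≤ (leafLengths T N).ncard := by positivity
  suffices h : (N : ℝ) ^ c ≤ (leafLengths T N).ncard by nlinarith
  have hsplit : (N : ℝ) = (N : ℝ) ^ c * (N : ℝ) ^ (1 - c) := by
    rw [← Real.rpow_add (by linarith)]; simp
  have h4m : 4 * m ≤ N := by
    have : (4 : ℝ) * m ≤ N := by
      calc (4 : ℝ) * m ≤ (N : ℝ) ^ c * 8 := by linarith
        _ ≤ (N : ℝ) ^ c * (N : ℝ) ^ (1 - c) := by gcongr
        _ = N := hsplit.symm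
    exact_mod_cast this
  have hq : 4 ≤ N / m := (Nat.le_div_iff_mul_le hmpos).2 h4m
  have hq1 : N / m * m ≤ N := Nat.div_mul_le_self _ _
  have hq2 : N < m * (N / m + 1) := Nat.lt_mul_div_succ _ hmpos
  have hqW : N / m = W + 2 := by omega
  rw [hqW] at hq hq1 hq2
  have hfit : W * m + 2 * m ≤ N := by nlinarith
  have hN3 : N ≤ 3 * (W * m) := by
    have : 2 * m ≤ W * m := Nat.mul_le_mul_right _ (by omega)
    nlinarith
  rcases hdich with h | ⟨a, ha, h⟩
  · have h1 : ((range (m + 1)).image fun x => 2 * x).card ≤ (leafLengths T N).ncard := by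
      rw [← Set.ncard_coe_finset]
      apply Set.ncard_le_ncard _ hfin
      intro l hl
      simp only [coe_image, coe_range, Set.mem_image, Set.mem_Iio] at hl
      obtain ⟨x, hx, rfl⟩ := hl
      exact ⟨by omega, h x (by omega)⟩
    rw [card_image_of_injective _ (fun x y e => by simpa using e), card_range] at h1
    have h1' : ((m + 1 : ℕ) : ℝ) ≤ (leafLengths T N).ncard := by exact_mod_cast h1
    push_cast at h1'
    linarith
  by_contra hcon
  push Not at hcon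
  have key := sequence_energy m W hmpos (by omega) a ha
    (hfin.toFinset.image fun l : ℕ => (l : ℤ) - 2) (by
      intro i j hij hj
      refine mem_image.2 ⟨a i + a j + (j - i) + 2, ?_, ?_⟩
      · rw [Set.Finite.mem_toFinset]
        have := ha i
        have := ha j
        exact ⟨by omega, h i j hij (by omega)⟩
      · push_cast [Nat.cast_sub hij.le]
        ring)
  have hS : (hfin.toFinset.image fun l : ℕ => (l : ℤ) - 2).card ≤ m := by
    refine card_image_le.trans ?_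
    rw [← Set.ncard_eq_toFinset_card _ hfin]
    exact_mod_cast (hcon.le.trans hm1)
  have k1 : N ^ 4 ≤ 81 * 2 ^ 27 * 625 * (Nat.log 2 (m + 1) + 1) ^ 14 * m ^ 5 := by
    calc N ^ 4 ≤ (3 * (W * m)) ^ 4 := by gcongr
      _ = 81 * (W * m) ^ 4 := by ring
      _ ≤ 81 * (2 ^ 27 * (Nat.log 2 (m + 1) + 1) ^ 14 * m * (m + 4 * m) ^ 4) := by
        refine Nat.mul_le_mul_left _ (key.trans ?_)
        gcongr
      _ = _ := by ring
  have k2 : (N : ℝ) ^ 4 ≤
      81 * 2 ^ 27 * 625 * ((Nat.log 2 (m + 1) + 1 : ℕ) : ℝ) ^ 14 * (m : ℝ) ^ 5 := by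
    exact_mod_cast k1
  have k3 := log_two_bound (k := m + 1) (N := N) (by omega) (by omega) hε
  have hNpos : (0 : ℝ) < N := by linarith
  have p1 : ((N : ℝ) ^ ε) ^ 14 = (N : ℝ) ^ (14 * ε) := by
    rw [← Real.rpow_natCast, ← Real.rpow_mul hNpos.le]
    congr 1
    push_cast
    ring
  have p2 : ((N : ℝ) ^ c) ^ 5 = (N : ℝ) ^ (5 * c) := by
    rw [← Real.rpow_natCast, ← Real.rpow_mul hNpos.le]
    congr 1
    push_cast
    ring
  have p3 : (N : ℝ) ^ 4 = (N : ℝ) ^ (14 * ε) * ((N : ℝ) ^ (14 * ε) * (N : ℝ) ^ (5 * c)) := by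
    rw [← Real.rpow_add hNpos, ← Real.rpow_add hNpos, ← Real.rpow_natCast]
    congr 1
    rw [hεdef]
    push_cast
    ring
  have k4 : (N : ℝ) ^ (14 * ε) * ((N : ℝ) ^ (14 * ε) * (N : ℝ) ^ (5 * c)) ≤
      C * ((N : ℝ) ^ (14 * ε) * (N : ℝ) ^ (5 * c)) := by
    calc _ = (N : ℝ) ^ 4 := p3.symm
      _ ≤ _ := k2
      _ ≤ 81 * 2 ^ 27 * 625 * ((2 / ε + 1) * (N : ℝ) ^ ε) ^ 14 * (2 * (N : ℝ) ^ c) ^ 5 := by gcongr
      _ = _ := by rw [mul_pow, mul_pow, p1, p2, hC]; ring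
  have k5 := le_of_mul_le_mul_right k4 (by positivity)
  linarith

theorem lower45 : 4 / 5 ≤ cStar := by
  refine le_of_forall_lt_imp_le_of_dense fun c hc => ?_
  have hb : BddAbove {c : ℝ | c ∈ Set.Icc (0 : ℝ) 1 ∧ PropertyP c} := ⟨1, fun x hx => hx.1.2⟩
  refine (le_max_left c (1 / 2)).trans (le_csSup hb ⟨⟨?_, ?_⟩, ?_⟩)
  · exact le_trans (by norm_num) (le_max_right _ _)
  · exact max_le (by linarith) (by norm_num)
  · exact propertyP_of_lt45 (lt_of_lt_of_le (by norm_num) (le_max_right _ _))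
      (max_lt hc (by norm_num))

end Pool.Agent.P.MP_07218e_co
end
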