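import Mathlib
import Pool.Agent.P.MP_07218e_co.Defs
import Pool.Agent.K.MP_07218e_co.C0

-- part Pool.Agent.P.MP_07218e_co.Cover
section

namespace Pool.Agent.P.MP_07218e_co

open Finset

section cover

variable {G : Type} [AddCommGroup G] [Fintype G] [DecidableEq G]

lemma cover_step (E R : Finset G) (hE : Fintype.card G ≤ 8 * E.card) :
    ∃ τ, 8 * (R.filter fun g => g - τ ∉ E).card ≤ 7 * R.card := by
  have h1 : ∑ τ : G, (R.filter fun g => g - τ ∈ E).card = R.card * E.card := by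
    simp only [card_filter]
    rw [Finset.sum_comm, ← smul_eq_mul, ← sum_const]
    refine Finset.sum_congr rfl fun g _ => ?_
    rw [← card_filter]
    refine Finset.card_bij (fun τ _ => g - τ) (by simp) (by simp) ?_
    intro e he
    exact ⟨g - e, by simpa using he, by simp⟩
  have h2 : ∑ _τ : G, R.card ≤ ∑ τ : G, 8 * (R.filter fun g => g - τ ∈ E).card := by
    rw [← Finset.mul_sum, h1, sum_const, card_univ, smul_eq_mul]
    nlinarith [Nat.mul_le_mul_right R.card hE]
  obtain ⟨τ, -, hτ⟩ := Finset.exists_le_of_sum_le univ_nonempty h2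
  refine ⟨τ, ?_⟩
  have := Finset.card_filter_add_card_filter_not (s := R) (fun g => g - τ ∈ E)
  omega

lemma cover_iter (E : Finset G) (hE : Fintype.card G ≤ 8 * E.card) (r : ℕ) :
    ∃ T : Finset G, T.card ≤ r ∧
      8 ^ r * (univ.filter fun g => ∀ τ ∈ T, g - τ ∉ E).card ≤ 7 ^ r * Fintype.card G := by
  induction r with
  | zero => exact ⟨∅, by simp, by simp⟩
  | succ r ih =>
    obtain ⟨T, hT, hT'⟩ := ih
    obtain ⟨τ, hτ⟩ := cover_step E (univ.filter fun g => ∀ τ ∈ T, g - τ ∉ E) hE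
    refine ⟨insert τ T, (card_insert_le _ _).trans (by omega), ?_⟩
    have e : (univ.filter fun g => ∀ σ ∈ insert τ T, g - σ ∉ E) =
        (univ.filter fun g => ∀ τ ∈ T, g - τ ∉ E).filter fun g => g - τ ∉ E := by
      ext g
      simp only [mem_insert, forall_eq_or_imp, mem_filter, mem_univ, true_and]
      tauto
    rw [e, pow_succ, pow_succ]
    have := Nat.mul_le_mul_left (8 ^ r) hτ
    nlinarith

lemma cover_all (E : Finset G) (hE : Fintype.card G ≤ 8 * E.card) :
    ∃ T : Finset G, T.card ≤ 6 * (Nat.log 2 (Fintype.card G) + 1) ∧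
      ∀ g, ∃ τ ∈ T, g - τ ∈ E := by
  obtain ⟨T, hT, hT'⟩ := cover_iter E hE (6 * (Nat.log 2 (Fintype.card G) + 1))
  refine ⟨T, hT, fun g => ?_⟩
  by_contra hne
  push Not at hne
  have h1 : 1 ≤ (univ.filter fun g => ∀ τ ∈ T, g - τ ∉ E).card :=
    card_pos.2 ⟨g, by simpa using hne⟩
  set k := Nat.log 2 (Fintype.card G) + 1 with hk
  have h2 : Fintype.card G < 2 ^ k := Nat.lt_pow_succ_log_self (by norm_num) _
  have h3 : 7 ^ (6 * k) * 2 ^ k ≤ 8 ^ (6 * k) := by
    rw [pow_mul, pow_mul, ← mul_pow]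
    exact Nat.pow_le_pow_left (by norm_num) _
  have h4 : 7 ^ (6 * k) * Fintype.card G < 7 ^ (6 * k) * 2 ^ k :=
    Nat.mul_lt_mul_of_pos_left h2 (by positivity)
  have h5 := Nat.mul_le_mul_left (8 ^ (6 * k)) h1
  omega

end cover

lemma card_ker_mul (M n : ℕ) [Fact M.Prime] (z : Fin n → ZMod M) (hz : z ≠ 0) :
    (univ.filter fun c : Fin n → ZMod M => ∑ i, c i * z i = 0).card * M = M ^ n := by
  let f : (Fin n → ZMod M) →+ ZMod M :=
    { toFun := fun c => ∑ i, c i * z i
      map_zero' := by simp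
      map_add' := by intro a b; simp [add_mul, Finset.sum_add_distrib] }
  obtain ⟨i₀, hi₀⟩ : ∃ i, z i ≠ 0 := Function.ne_iff.1 hz
  have hsurj : Function.Surjective f := by
    intro s
    refine ⟨Pi.single i₀ (s / z i₀), ?_⟩
    change ∑ i, (Pi.single i₀ (s / z i₀) : Fin n → ZMod M) i * z i = s
    rw [Finset.sum_eq_single i₀]
    · simp [hi₀]
    · intro j _ hj
      simp [hj]
    · simp
  have h1 := f.ker.card_mul_index
  rw [AddSubgroup.index_ker, AddMonoidHom.range_eq_top.2 hsurj, AddSubgroup.card_top] at h1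
  simp only [Nat.card_eq_fintype_card, ZMod.card, Fintype.card_pi, prod_const, card_univ,
    Fintype.card_fin] at h1
  rw [← h1]
  congr 1
  rw [Fintype.card_subtype]
  congr 1
  ext c
  simp [f]

lemma exists_projection {ι : Type} [DecidableEq ι] (M n : ℕ) [Fact M.Prime] (D : Finset ι)
    (z : ι → Fin n → ZMod M) (hz : Set.InjOn z D) (hD : 2 * D.card ≤ M) :
    ∃ c : Fin n → ZMod M, D.card ≤ 2 * (D.image fun w => ∑ i, c i * z w i).card := by
  have h1 : ∑ c : Fin n → ZMod M, M * (D.offDiag.filter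
      fun p => ∑ i, c i * z p.1 i = ∑ i, c i * z p.2 i).card ≤
      ∑ _c : Fin n → ZMod M, D.card * D.card := by
    rw [← Finset.mul_sum]
    simp only [card_filter]
    rw [Finset.sum_comm, Finset.mul_sum]
    have : ∀ p ∈ D.offDiag, M * ∑ c : Fin n → ZMod M,
        (if ∑ i, c i * z p.1 i = ∑ i, c i * z p.2 i then 1 else 0) = M ^ n := by
      intro p hp
      rw [mem_offDiag] at hp
      rw [← card_filter, mul_comm, ← card_ker_mul M n (z p.1 - z p.2)
        (sub_ne_zero.2 fun e => hp.2.2 (hz hp.1 hp.2.1 e))]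
      congr 2
      ext c
      simp [mul_sub, Finset.sum_sub_distrib, sub_eq_zero]
    rw [Finset.sum_congr rfl this]
    simp only [sum_const, smul_eq_mul, card_univ, Fintype.card_pi, ZMod.card, prod_const,
      Fintype.card_fin, offDiag_card]
    rw [mul_comm]
    exact Nat.mul_le_mul_left _ (Nat.sub_le _ _)
  obtain ⟨c, -, hc⟩ := Finset.exists_le_of_sum_le univ_nonempty h1
  refine ⟨c, ?_⟩
  set φ : ι → ZMod M := fun w => ∑ i, c i * z w i with hφ
  set C := D.offDiag.filter fun p => φ p.1 = φ p.2 with hC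
  have hc' : M * C.card ≤ D.card * D.card := hc
  have h2 : 2 * C.card ≤ D.card := by
    rcases Nat.eq_zero_or_pos D.card with h0 | h0
    · have : C.card ≤ D.offDiag.card := card_filter_le _ _
      rw [offDiag_card, h0] at this
      omega
    · have : D.card * (2 * C.card) ≤ D.card * D.card := by
        nlinarith [Nat.mul_le_mul_right C.card hD]
      exact Nat.le_of_mul_le_mul_left this h0
  have h3 : (D.filter fun w => ¬ ∀ w' ∈ D, φ w = φ w' → w = w').card ≤ C.card := by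
    refine le_trans (card_le_card ?_) (card_image_le (f := Prod.fst))
    intro w hw
    rw [mem_filter] at hw
    obtain ⟨hw1, hw2⟩ := hw
    push Not at hw2
    obtain ⟨w', h1, h2, h3⟩ := hw2
    exact mem_image.2 ⟨(w, w'), mem_filter.2 ⟨mem_offDiag.2 ⟨hw1, h1, h3⟩, h2⟩, rfl⟩
  have h4 : (D.filter fun w => ∀ w' ∈ D, φ w = φ w' → w = w').card ≤ (D.image φ).card := by
    apply card_le_card_of_injOn φ
    · intro w hw
      exact mem_coe.2 (mem_image_of_mem _ (mem_filter.1 hw).1)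
    · intro w hw w' hw' e
      exact (mem_filter.1 hw).2 w' (mem_filter.1 hw').1 e
  have := Finset.card_filter_add_card_filter_not (s := D) (fun w => ∀ w' ∈ D, φ w = φ w' → w = w')
  omega

lemma card_compositions (n t : ℕ) :
    ((Fintype.piFinset fun _ : Fin n => range (t + 1)).filter fun y => ∑ i, y i = t).card ≤
      2 ^ (n + t) := by
  have h1 : ∑ y ∈ Fintype.piFinset fun _ : Fin n => range (t + 1), ∏ i, (1 / 2 : ℝ) ^ y i ≤
      2 ^ n := by
    rw [← Finset.prod_univ_sum (fun _ : Fin n => range (t + 1)) (fun _ k => (1 / 2 : ℝ) ^ k)]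
    rw [prod_const, card_univ, Fintype.card_fin]
    exact pow_le_pow_left₀ (by positivity) (sum_geometric_two_le _) _
  have h2 : ∑ y ∈ (Fintype.piFinset fun _ : Fin n => range (t + 1)).filter
      (fun y => ∑ i, y i = t), ∏ i, (1 / 2 : ℝ) ^ y i ≤ 2 ^ n :=
    le_trans (Finset.sum_le_sum_of_subset_of_nonneg (filter_subset _ _)
      (fun _ _ _ => by positivity)) h1
  rw [Finset.sum_congr rfl (g := fun _ => (1 / 2 : ℝ) ^ t) (by
    intro y hy
    rw [Finset.prod_pow_eq_pow_sum, (mem_filter.1 hy).2]), sum_const, nsmul_eq_mul,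
    one_div, inv_pow, ← div_eq_mul_inv, div_le_iff₀ (by positivity), ← pow_add] at h2
  exact_mod_cast h2

end Pool.Agent.P.MP_07218e_co
end

-- part Pool.Agent.P.MP_07218e_co.Digits
section

/-! Sets with many differences and few sums from a general digit system. -/

namespace Pool.Agent.P.MP_07218e_co

open Finset

/-- A digit system: the digit `k < K` stands for the difference `u k - v k`, and all sums
`u k + v k'` lie in `S`. -/
structure Digits where
  K : ℕ
  B : ℕ
  u : ℕ → ℕ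
  v : ℕ → ℕ
  S : ℕ → Bool
  u_le : ∀ k < K, u k ≤ B
  v_le : ∀ k < K, v k ≤ B
  inj : ∀ k k', u k + v k' = u k' + v k → k = k'
  mem : ∀ k < K, ∀ k' < K, S (u k + v k') = true

namespace Digits

variable (G : Digits)

/-- Words with prescribed positive and negative mass. -/
def words (n p q : ℕ) : Finset (Fin n → ℕ) :=
  (Fintype.piFinset fun _ : Fin n => range G.K).filter
    fun w => (∑ i, G.u (w i), ∑ i, G.v (w i)) = (p, q)

/-- Vectors with entries in `S` and prescribed mass. -/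
def sums (n s : ℕ) : Finset (Fin n → ℕ) :=
  (Fintype.piFinset fun _ : Fin n => (range (s + 1)).filter fun y => G.S y = true).filter
    fun y => ∑ i, y i = s

lemma exists_words (n : ℕ) (x : ℝ) :
    ∃ p q, (∑ k ∈ range G.K, x ^ (G.u k + G.v k)) ^ n ≤
      ((G.B : ℝ) * n + 1) ^ 2 * ((G.words n p q).card * x ^ (p + q)) := by
  have hpos : (0 : ℝ) < ((G.B : ℝ) * n + 1) ^ 2 := by positivity
  obtain ⟨⟨p, q⟩, -, h⟩ := Finset.exists_le_sum_fiber_of_maps_to_of_nsmul_le_sum
    (s := Fintype.piFinset fun _ : Fin n => range G.K)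
    (t := range (G.B * n + 1) ×ˢ range (G.B * n + 1))
    (f := fun w => (∑ i, G.u (w i), ∑ i, G.v (w i)))
    (w := fun w => ∏ i, x ^ (G.u (w i) + G.v (w i)))
    (b := (∑ k ∈ range G.K, x ^ (G.u k + G.v k)) ^ n / ((G.B : ℝ) * n + 1) ^ 2)
    (by
      intro w hw
      rw [Fintype.mem_piFinset] at hw
      simp only [mem_range] at hw
      have h1 : ∑ i, G.u (w i) ≤ n * G.B := by
        simpa using Finset.sum_le_card_nsmul univ _ G.B (fun i _ => G.u_le _ (hw i))
      have h2 : ∑ i, G.v (w i) ≤ n * G.B := by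
        simpa using Finset.sum_le_card_nsmul univ _ G.B (fun i _ => G.v_le _ (hw i))
      rw [mul_comm] at h1 h2
      simp only [mem_product, mem_range]
      omega)
    (by simp)
    (by
      rw [← Finset.prod_univ_sum (fun _ : Fin n => range G.K)
        (fun _ k => x ^ (G.u k + G.v k))]
      simp only [card_product, card_range, nsmul_eq_mul, prod_const, card_univ, Fintype.card_fin]
      push_cast
      apply le_of_eq
      field_simp)
  refine ⟨p, q, ?_⟩
  rw [div_le_iff₀' hpos] at h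
  refine h.trans (le_of_eq ?_)
  congr 1
  rw [← nsmul_eq_mul, ← sum_const]
  refine Finset.sum_congr rfl fun w hw => ?_
  have := (mem_filter.1 hw).2
  simp only [Prod.mk.injEq] at this
  rw [Finset.prod_pow_eq_pow_sum, ← this.1, ← this.2, ← Finset.sum_add_distrib]

lemma card_sums (n s : ℕ) {r F : ℝ} (hr : 0 ≤ r)
    (hF : ∀ m, ∑ y ∈ (range m).filter (fun y => G.S y = true), r ^ y ≤ F) :
    ((G.sums n s).card : ℝ) * r ^ s ≤ F ^ n := by
  have h1 : ∑ y ∈ Fintype.piFinset
      fun _ : Fin n => (range (s + 1)).filter fun y => G.S y = true, ∏ i, r ^ y i ≤ F ^ n := by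
    rw [← Finset.prod_univ_sum
      (fun _ : Fin n => (range (s + 1)).filter fun y => G.S y = true) (fun _ k => r ^ k)]
    rw [prod_const, card_univ, Fintype.card_fin]
    exact pow_le_pow_left₀ (by positivity) (hF _) _
  have h2 : ∑ y ∈ G.sums n s, ∏ i, r ^ y i ≤ F ^ n :=
    le_trans (Finset.sum_le_sum_of_subset_of_nonneg (filter_subset _ _)
      (fun _ _ _ => by positivity)) h1
  rwa [Finset.sum_congr rfl (g := fun _ => r ^ s) (by
    intro y hy
    rw [Finset.prod_pow_eq_pow_sum, (mem_filter.1 hy).2]), sum_const, nsmul_eq_mul] at h2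

lemma build (n p q M : ℕ) [Fact M.Prime] (hB : 2 * G.B < M)
    (h1 : 2 * (G.words n p q).card ≤ M) (h2 : M ≤ 4 * (G.words n p q).card) :
    ∃ (a : ZMod M → ZMod M) (R : Finset (ZMod M)),
      R.card ≤ 6 * (Nat.log 2 M + 1) * (G.sums n (p + q)).card ∧
        ∀ i j, a i + a j + j - i ∈ R := by
  have hmem : ∀ w ∈ G.words n p q,
      (∀ i, w i < G.K) ∧ ∑ i, G.u (w i) = p ∧ ∑ i, G.v (w i) = q := by
    intro w hw
    simpa [words, Fintype.mem_piFinset] using hw
  obtain ⟨c, hc⟩ := exists_projection M n (G.words n p q)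
    (fun w i => (G.u (w i) : ZMod M) - G.v (w i)) (by
      intro w hw w' hw' e
      funext i
      have e1 : (G.u (w i) : ZMod M) - G.v (w i) = (G.u (w' i) : ZMod M) - G.v (w' i) :=
        congrFun e i
      have e2 : ((G.u (w i) + G.v (w' i) : ℕ) : ZMod M)
          = ((G.u (w' i) + G.v (w i) : ℕ) : ZMod M) := by
        push_cast
        linear_combination e1
      rw [ZMod.natCast_eq_natCast_iff] at e2
      have a1 := G.u_le _ ((hmem w hw).1 i)
      have a2 := G.v_le _ ((hmem w hw).1 i)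
      have a3 := G.u_le _ ((hmem w' hw').1 i)
      have a4 := G.v_le _ ((hmem w' hw').1 i)
      exact G.inj _ _ (e2.eq_of_lt_of_lt (by omega) (by omega))) h1
  obtain ⟨T, hT, hcov⟩ := cover_all
    ((G.words n p q).image fun w => ∑ i, c i * ((G.u (w i) : ZMod M) - G.v (w i)))
    (by rw [ZMod.card]; omega)
  rw [ZMod.card] at hT
  have : ∀ i : ZMod M, ∃ τ ∈ T, ∃ w ∈ G.words n p q,
      ∑ k, c k * ((G.u (w k) : ZMod M) - G.v (w k)) = 2 * i - τ := by
    intro i
    obtain ⟨τ, hτ, h⟩ := hcov (2 * i)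
    exact ⟨τ, hτ, by simpa using h⟩
  choose τ hτ w hw hwe using this
  refine ⟨fun i => ∑ k, c k * G.v (w i k) + i,
    (T ×ˢ G.sums n (p + q)).image fun s => ∑ k, c k * (s.2 k : ZMod M) + s.1, ?_, ?_⟩
  · refine card_image_le.trans ?_
    rw [card_product]
    exact Nat.mul_le_mul_right _ hT
  · intro i j
    rw [mem_image]
    have hs : ∑ k, (G.u (w j k) + G.v (w i k)) = p + q := by
      rw [Finset.sum_add_distrib, (hmem _ (hw j)).2.1, (hmem _ (hw i)).2.2]
    refine ⟨(τ j, fun k => G.u (w j k) + G.v (w i k)), ?_, ?_⟩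
    · simp only [sums, mem_product, mem_filter, Fintype.mem_piFinset, mem_range]
      refine ⟨hτ j, fun k => ⟨?_, G.mem _ ((hmem _ (hw j)).1 k) _ ((hmem _ (hw i)).1 k)⟩, hs⟩
      rw [← hs, Nat.lt_succ_iff]
      exact Finset.single_le_sum (f := fun k => G.u (w j k) + G.v (w i k))
        (fun _ _ => Nat.zero_le _) (mem_univ k)
    · have e := hwe j
      simp only [mul_sub, Finset.sum_sub_distrib] at e
      simp only [Nat.cast_add, mul_add, Finset.sum_add_distrib]
      linear_combination e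

lemma exists_seq {α r t F : ℝ} (hα0 : 0 < α) (hα1 : α ≤ 1) (hr0 : 0 < r) (hr1 : r ≤ 1)
    (ht0 : 0 < t) (htr : t ^ α ≤ r) (hF1 : 1 ≤ F)
    (hF : ∀ m, ∑ y ∈ (range m).filter (fun y => G.S y = true), r ^ y ≤ F)
    (hΦ : F < (∑ k ∈ range G.K, t ^ (G.u k + G.v k)) ^ α) (M₀ : ℕ) :
    ∃ M : ℕ, M₀ ≤ M ∧ 0 < M ∧ ∃ (a : ZMod M → ZMod M) (R : Finset (ZMod M)),
      (R.card : ℝ) ≤ (M : ℝ) ^ α ∧ ∀ i j, a i + a j + j - i ∈ R := by
  set Φ : ℝ := ∑ k ∈ range G.K, t ^ (G.u k + G.v k) with hΦdef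
  have hΦ0 : 0 ≤ Φ := Finset.sum_nonneg fun _ _ => by positivity
  set θ : ℝ := Φ ^ α with hθ
  have hθ0 : 0 < θ := by linarith
  have hlim := tendsto_pow_const_mul_const_pow_of_abs_lt_one 3 (r := F / θ) (by
    rw [abs_of_pos (by positivity), div_lt_one hθ0]; exact hΦ)
  set C : ℝ := 6 * (G.K + 3) * (G.B + 1) ^ 2 with hC
  have hC0 : 0 < C := by positivity
  obtain ⟨s₀, hs₀⟩ := Filter.eventually_atTop.1
    (hlim.eventually (gt_mem_nhds (show (0 : ℝ) < 1 / C by positivity)))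
  set n : ℕ := s₀ + M₀ + G.B + 1 with hn
  obtain ⟨p, q, hpq⟩ := G.exists_words n t
  rw [← hΦdef] at hpq
  set d : ℕ := (G.words n p q).card with hd
  have hn1 : (1 : ℝ) ≤ n := by exact_mod_cast (by omega : 1 ≤ n)
  have hP1 : (1 : ℝ) ≤ (((G.B : ℝ) + 1) * n) ^ 2 := by
    apply one_le_pow₀
    have : (0 : ℝ) ≤ G.B := by positivity
    nlinarith
  have k1 : Φ ^ n ≤ (((G.B : ℝ) + 1) * n) ^ 2 * (d * t ^ (p + q)) := by
    refine hpq.trans ?_
    gcongr
    linarith
  have k2 : θ ^ n ≤ (((G.B : ℝ) + 1) * n) ^ 2 * ((d : ℝ) ^ α * r ^ (p + q)) := by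
    calc θ ^ n = (Φ ^ n) ^ α := by
          rw [hθ, ← Real.rpow_natCast, ← Real.rpow_natCast, ← Real.rpow_mul hΦ0,
            ← Real.rpow_mul hΦ0, mul_comm]
      _ ≤ ((((G.B : ℝ) + 1) * n) ^ 2 * (d * t ^ (p + q))) ^ α :=
          Real.rpow_le_rpow (by positivity) k1 hα0.le
      _ = ((((G.B : ℝ) + 1) * n) ^ 2) ^ α * ((d : ℝ) ^ α * (t ^ α) ^ (p + q)) := by
          rw [Real.mul_rpow (by positivity) (by positivity),
            Real.mul_rpow (by positivity) (by positivity), ← Real.rpow_natCast t,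
            ← Real.rpow_natCast (t ^ α), ← Real.rpow_mul ht0.le, ← Real.rpow_mul ht0.le,
            mul_comm α]
      _ ≤ _ := by
          gcongr
          exact Real.rpow_le_self_of_one_le hP1 hα1
  have k3 : 6 * ((G.K : ℝ) + 3) * n * F ^ n ≤ (d : ℝ) ^ α * r ^ (p + q) := by
    have h := (hs₀ n (by omega)).le
    rw [div_pow, ← mul_div_assoc, div_le_div_iff₀ (by positivity) hC0, one_mul] at h
    apply le_of_mul_le_mul_left _ (lt_of_lt_of_le one_pos hP1)
    refine le_trans (le_of_eq ?_) (h.trans k2)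
    rw [hC]; ring
  have k4 : (n : ℝ) ≤ (d : ℝ) ^ α := by
    have h1 : (1 : ℝ) ≤ F ^ n := one_le_pow₀ hF1
    have h2 : (d : ℝ) ^ α * r ^ (p + q) ≤ (d : ℝ) ^ α :=
      mul_le_of_le_one_right (by positivity) (pow_le_one₀ hr0.le hr1)
    have h3 : (0 : ℝ) ≤ G.K := by positivity
    have h4 : (n : ℝ) ≤ 6 * ((G.K : ℝ) + 3) * n := by nlinarith
    have h5 : 6 * ((G.K : ℝ) + 3) * n ≤ 6 * ((G.K : ℝ) + 3) * n * F ^ n :=
      le_mul_of_one_le_right (by positivity) h1
    linarith
  have hd1 : (1 : ℝ) ≤ d := by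
    rcases Nat.eq_zero_or_pos d with h0 | h0
    · rw [h0, Nat.cast_zero, Real.zero_rpow hα0.ne'] at k4
      linarith
    · exact_mod_cast h0
  have k5 : n ≤ d := by
    have := k4.trans (Real.rpow_le_self_of_one_le hd1 hα1)
    exact_mod_cast this
  obtain ⟨M, hMp, hM1, hM2⟩ := Nat.exists_prime_lt_and_le_two_mul (2 * d) (by omega)
  have : Fact M.Prime := ⟨hMp⟩
  obtain ⟨a, R, hR, ha⟩ := G.build n p q M (by omega) (by omega) (by omega)
  refine ⟨M, by omega, by omega, a, R, ?_, ha⟩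
  have hdle : d ≤ G.K ^ n := by
    refine (card_filter_le _ _).trans ?_
    simp
  have hMle : M ≤ 2 ^ (2 + G.K * n) := by
    rw [pow_add, pow_mul]
    have : G.K ^ n ≤ (2 ^ G.K) ^ n := Nat.pow_le_pow_left Nat.lt_two_pow_self.le _
    omega
  have hlogM : Nat.log 2 M ≤ 2 + G.K * n := by
    have := Nat.log_mono_right (b := 2) hMle
    rwa [Nat.log_pow (by norm_num)] at this
  have hr : 6 * (Nat.log 2 M + 1) ≤ 6 * (G.K + 3) * n := by
    have : 1 ≤ n := by omega
    nlinarith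
  have hR2 : R.card ≤ 6 * (G.K + 3) * n * (G.sums n (p + q)).card :=
    hR.trans (Nat.mul_le_mul_right _ hr)
  have hR3 : (R.card : ℝ) ≤ 6 * ((G.K : ℝ) + 3) * n * (G.sums n (p + q)).card := by
    exact_mod_cast hR2
  have k6 : (R.card : ℝ) ≤ (d : ℝ) ^ α := by
    apply le_of_mul_le_mul_right _ (show 0 < r ^ (p + q) by positivity)
    calc (R.card : ℝ) * r ^ (p + q)
        ≤ 6 * ((G.K : ℝ) + 3) * n * (G.sums n (p + q)).card * r ^ (p + q) := by gcongr
      _ = 6 * ((G.K : ℝ) + 3) * n * ((G.sums n (p + q)).card * r ^ (p + q)) := by ring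
      _ ≤ 6 * ((G.K : ℝ) + 3) * n * F ^ n := by
          gcongr
          exact G.card_sums n (p + q) hr0.le hF
      _ ≤ _ := k3
  exact k6.trans (Real.rpow_le_rpow (by positivity)
    (by exact_mod_cast (by omega : d ≤ M)) hα0.le)

end Digits

end Pool.Agent.P.MP_07218e_co
end

-- part Pool.Agent.P.MP_07218e_co.Caterpillar
section

namespace Pool.Agent.P.MP_07218e_co

open SimpleGraph

lemma size_half {k : ℕ} (hk : k ≠ 0) : Nat.size (k / 2) + 1 = Nat.size k := by
  apply le_antisymm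
  · obtain ⟨s, hs⟩ : ∃ s, Nat.size k = s + 1 :=
      ⟨Nat.size k - 1, by have := Nat.size_pos.2 (Nat.pos_of_ne_zero hk); omega⟩
    have h1 := Nat.lt_size_self k
    rw [hs, pow_succ] at h1
    rw [hs, Nat.add_le_add_iff_right, Nat.size_le]
    omega
  · rw [Nat.size_le, pow_succ]
    have := Nat.lt_size_self (k / 2)
    omega

section

variable (b : ℕ → ℕ) (L : ℕ)

/-- Vertices: `(i, 0)` is the `i`-th spine vertex, `(i, k)` with `k ≥ 1` are the nodes of a
perfect binary tree in heap order. -/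
abbrev CV : Type := {p : ℕ × ℕ // p.1 < L + 2 ∧ p.2 < 2 ^ b p.1}

lemma CV_finite : Finite (CV b L) := by
  have : ({p : ℕ × ℕ | p.1 < L + 2 ∧ p.2 < 2 ^ b p.1} : Set (ℕ × ℕ)).Finite := by
    refine (Set.Finite.biUnion (Set.finite_Iio (L + 2))
      (t := fun i => (fun k => (i, k)) '' Set.Iio (2 ^ b i))
      (fun i _ => (Set.finite_Iio _).image _)).subset ?_
    rintro ⟨i, k⟩ ⟨h1, h2⟩
    simp only [Set.mem_iUnion, Set.mem_image, Set.mem_Iio]
    exact ⟨i, h1, k, h2, rfl⟩
  exact this.to_subtype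

def croot : CV b L := ⟨(0, 0), by simp⟩

def cpar (v : CV b L) : CV b L :=
  if h : v.1.2 = 0 then ⟨(v.1.1 - 1, 0), by have := v.2.1; omega, by positivity⟩
  else ⟨(v.1.1, v.1.2 / 2), v.2.1, lt_of_le_of_lt (Nat.div_le_self _ _) v.2.2⟩

def cdep (v : CV b L) : ℕ := v.1.1 + Nat.size v.1.2

variable {b L}

lemma cpar_zero {v : CV b L} (h : v.1.2 = 0) : (cpar b L v).1 = (v.1.1 - 1, 0) := by
  simp [cpar, h]

lemma cpar_pos {v : CV b L} (h : v.1.2 ≠ 0) : (cpar b L v).1 = (v.1.1, v.1.2 / 2) := by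
  simp [cpar, h]

lemma ne_croot {v : CV b L} : v ≠ croot b L ↔ (v.1.1 ≠ 0 ∨ v.1.2 ≠ 0) := by
  obtain ⟨⟨i, k⟩, h⟩ := v
  simp only [croot, ne_eq, Subtype.mk.injEq, Prod.mk.injEq]
  tauto

lemma cdep_par (v : CV b L) (hv : v ≠ croot b L) : cdep b L (cpar b L v) + 1 = cdep b L v := by
  rw [ne_croot] at hv
  by_cases h : v.1.2 = 0
  · simp only [cdep, cpar_zero h, h, Nat.size_zero]
    omega
  · simp only [cdep, cpar_pos h]
    have := size_half h
    omega

variable (b L)

def cgraph : SimpleGraph (CV b L) where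
  Adj u v := (u ≠ croot b L ∧ cpar b L u = v) ∨ (v ≠ croot b L ∧ cpar b L v = u)
  symm := ⟨fun _ _ h => h.symm⟩
  loopless := ⟨fun v h => by
    rcases h with ⟨h1, h2⟩ | ⟨h1, h2⟩ <;>
    · have := cdep_par v h1
      rw [h2] at this
      omega⟩

def crooted : Rooted (cgraph b L) where
  root := croot b L
  par := cpar b L
  dep := cdep b L
  dep_root := by simp [cdep, croot]
  dep_par := cdep_par
  adj_iff := fun _ _ => Iff.rfl

variable {b L}

lemma mem_cchildren {u v : CV b L} : u ∈ (crooted b L).children v ↔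
    (u.1.2 = 0 ∧ v.1.2 = 0 ∧ u.1.1 = v.1.1 + 1) ∨
      (u.1.2 ≠ 0 ∧ u.1.1 = v.1.1 ∧ u.1.2 / 2 = v.1.2) := by
  change (u ≠ croot b L ∧ cpar b L u = v) ↔ _
  rw [ne_croot, Subtype.ext_iff]
  by_cases h : u.1.2 = 0
  · rw [cpar_zero h, Prod.ext_iff]
    simp only
    omega
  · rw [cpar_pos h, Prod.ext_iff]
    simp only
    omega

lemma cchildren_root (h0 : b 0 = 0) :
    ((crooted b L).children (crooted b L).root).ncard = 1 := by
  rw [Set.ncard_eq_one]
  refine ⟨⟨(1, 0), by omega, by positivity⟩, ?_⟩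
  ext ⟨⟨i, k⟩, h1, h2⟩
  rw [mem_cchildren]
  simp only [crooted, croot, Set.mem_singleton_iff, Subtype.mk.injEq, Prod.mk.injEq] at *
  constructor
  · rintro (h | ⟨h, rfl, h'⟩)
    · omega
    · rw [h0] at h2
      omega
  · rintro ⟨rfl, rfl⟩
    simp

lemma cchildren_cases (h0 : b 0 = 0) (hL : b (L + 1) = 0) (hpos : ∀ i, 1 ≤ i → i ≤ L → 1 ≤ b i)
    (v : CV b L) (hv : v ≠ croot b L) :
    ((crooted b L).children v = ∅ ∧ Nat.size v.1.2 = b v.1.1) ∨
      ((crooted b L).children v).ncard = 2 := by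
  rw [ne_croot] at hv
  obtain ⟨⟨i, k⟩, h1, h2⟩ := v
  simp only at h1 h2 hv
  by_cases hk : k = 0
  · subst hk
    by_cases hi : i = L + 1
    · left
      subst hi
      refine ⟨?_, by simp [hL]⟩
      ext ⟨⟨i', k'⟩, h3, h4⟩
      rw [mem_cchildren]
      simp only [Set.mem_empty_iff_false, iff_false] at *
      rintro (h | ⟨h, rfl, h'⟩)
      · omega
      · rw [hL] at h4
        omega
    · right
      have hb : 1 < 2 ^ b i := Nat.one_lt_two_pow (by have := hpos i (by omega) (by omega); omega)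
      rw [Set.ncard_eq_two]
      refine ⟨⟨(i + 1, 0), by simp only; omega, by positivity⟩, ⟨(i, 1), h1, hb⟩, by simp, ?_⟩
      ext ⟨⟨i', k'⟩, h3, h4⟩
      rw [mem_cchildren]
      simp only [Set.mem_insert_iff, Set.mem_singleton_iff, Subtype.mk.injEq, Prod.mk.injEq,
        true_and]
      omega
  · obtain ⟨s, hs⟩ : ∃ s, b i = s + 1 := by
      refine ⟨b i - 1, ?_⟩
      by_contra hne
      have : b i = 0 := by omega
      rw [this] at h2
      omega
    by_cases hk2 : 2 * k < 2 ^ b i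
    · right
      have hk3 : 2 * k + 1 < 2 ^ b i := by
        rw [hs, pow_succ] at hk2 ⊢
        omega
      rw [Set.ncard_eq_two]
      refine ⟨⟨(i, 2 * k), h1, hk2⟩, ⟨(i, 2 * k + 1), h1, hk3⟩, by simp, ?_⟩
      ext ⟨⟨i', k'⟩, h3, h4⟩
      rw [mem_cchildren]
      simp only [Set.mem_insert_iff, Set.mem_singleton_iff, Subtype.mk.injEq, Prod.mk.injEq]
      omega
    · left
      constructor
      · ext ⟨⟨i', k'⟩, h3, h4⟩
        rw [mem_cchildren]
        simp only [Set.mem_empty_iff_false, iff_false] at *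
        rintro (h | ⟨h, rfl, h'⟩)
        · omega
        · dsimp only at h4
          omega
      · simp only
        apply le_antisymm (Nat.size_le.2 h2)
        rw [hs, Nat.succ_le_iff, Nat.lt_size]
        rw [hs, pow_succ] at hk2
        omega

lemma cgraph_oneThree (h0 : b 0 = 0) (hL : b (L + 1) = 0)
    (hpos : ∀ i, 1 ≤ i → i ≤ L → 1 ≤ b i) : IsOneThreeTree (cgraph b L) := by
  have := CV_finite b L
  refine ⟨(crooted b L).isTree, fun v => ?_⟩
  by_cases hv : v = (crooted b L).root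
  · left
    rw [hv, Rooted.neighborSet_root, cchildren_root h0]
  · rw [(crooted b L).ncard_neighborSet_of_ne hv]
    rcases cchildren_cases h0 hL hpos v hv with ⟨h, -⟩ | h
    · left; rw [h]; simp
    · right; rw [h]

lemma cleaf_size (h0 : b 0 = 0) (hL : b (L + 1) = 0) (hpos : ∀ i, 1 ≤ i → i ≤ L → 1 ≤ b i)
    {v : CV b L} (h : ((cgraph b L).neighborSet v).ncard = 1) : Nat.size v.1.2 = b v.1.1 := by
  have := CV_finite b L
  by_cases hv : v = (crooted b L).root
  · rw [hv]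
    simp [crooted, croot, h0]
  · rw [(crooted b L).ncard_neighborSet_of_ne hv] at h
    rcases cchildren_cases h0 hL hpos v hv with ⟨-, h'⟩ | h'
    · exact h'
    · omega

lemma citer (v : CV b L) (a : ℕ) :
    ((cpar b L)^[a] v).1.1 ≤ v.1.1 ∧
    (a ≤ Nat.size v.1.2 → ((cpar b L)^[a] v).1.1 = v.1.1 ∧
      Nat.size ((cpar b L)^[a] v).1.2 + a = Nat.size v.1.2) ∧
    (Nat.size v.1.2 ≤ a → ((cpar b L)^[a] v).1.2 = 0) := by
  induction a with
  | zero => simp [Nat.size_eq_zero]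
  | succ a ih =>
    obtain ⟨i1, i2, i3⟩ := ih
    rw [Function.iterate_succ_apply']
    by_cases h : ((cpar b L)^[a] v).1.2 = 0
    · rw [cpar_zero h]
      refine ⟨by simp only; omega, fun ha => ?_, fun _ => rfl⟩
      have := (i2 (by omega)).2
      rw [h, Nat.size_zero] at this
      omega
    · rw [cpar_pos h]
      have hh := size_half h
      refine ⟨i1, fun ha => ?_, fun ha => ?_⟩
      · have := i2 (by omega)
        simp only
        omega
      · simp only
        have hlt : a < Nat.size v.1.2 := by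
          by_contra hge
          exact h (i3 (by omega))
        have := i2 (by omega)
        rw [← Nat.size_eq_zero]
        omega

lemma cspine_eq {u v : CV b L} (hu : u.1.2 = 0) (hv : v.1.2 = 0)
    (h : cdep b L u = cdep b L v) : u = v := by
  simp only [cdep, hu, hv, Nat.size_zero, add_zero] at h
  exact Subtype.ext (Prod.ext h (hu.trans hv.symm))

lemma cgood_not_both {u v : CV b L} {x y : ℕ} (h : (crooted b L).Good u v x y) :
    x ≤ Nat.size u.1.2 ∨ y ≤ Nat.size v.1.2 := by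
  by_contra hne
  push Not at hne
  have e := h.dep_eq
  obtain ⟨g1, g2, -, g4⟩ := h
  apply g4 (by omega) (by omega)
  have d1 := (crooted b L).dep_iter (x - 1) u (by omega)
  have d2 := (crooted b L).dep_iter (y - 1) v (by omega)
  refine cspine_eq ((citer u (x - 1)).2.2 (by omega)) ((citer v (y - 1)).2.2 (by omega)) ?_
  change (crooted b L).dep ((crooted b L).par^[x - 1] u) =
    (crooted b L).dep ((crooted b L).par^[y - 1] v)
  omega

lemma cgood_lt {u v : CV b L} {x y : ℕ} (h : (crooted b L).Good u v x y) (hlt : u.1.1 < v.1.1) :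
    x + y = Nat.size u.1.2 + Nat.size v.1.2 + (v.1.1 - u.1.1) := by
  have e := h.dep_eq
  have nb := cgood_not_both h
  have g3 : (cpar b L)^[x] u = (cpar b L)^[y] v := h.2.2.1
  obtain ⟨a1, a2, -⟩ := citer u x
  obtain ⟨-, b2, b3⟩ := citer v y
  rw [g3] at a1 a2
  have hy : Nat.size v.1.2 < y := by
    by_contra hge
    have := (b2 (by omega)).1
    omega
  have hz := b3 hy.le
  have := (a2 (by omega)).2
  rw [hz, Nat.size_zero] at this
  change cdep b L u + y = cdep b L v + x at e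
  simp only [cdep] at e
  omega

lemma good_symm {V : Type} {G : SimpleGraph V} {R : Rooted G} {u v : V} {x y : ℕ}
    (h : R.Good u v x y) : R.Good v u y x :=
  ⟨h.2.1, h.1, h.2.2.1.symm, fun h1 h2 => (h.2.2.2 h2 h1).symm⟩

lemma cgraph_lengths (h0 : b 0 = 0) (hL : b (L + 1) = 0) (hpos : ∀ i, 1 ≤ i → i ≤ L → 1 ≤ b i)
    {l : ℕ} (h : LeafLen (cgraph b L) l) :
    (∃ i, l ≤ 2 * b i) ∨ ∃ i j, i < j ∧ l = b i + b j + (j - i) := by
  obtain ⟨u, v, hu, hv, p, hp, rfl⟩ := h
  have su := cleaf_size h0 hL hpos hu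
  have sv := cleaf_size h0 hL hpos hv
  obtain ⟨x, y, hxy, hg, -⟩ := (crooted b L).path_struct p hp
  rcases lt_trichotomy u.1.1 v.1.1 with hlt | heq | hgt
  · right
    exact ⟨_, _, hlt, by rw [← hxy, cgood_lt hg hlt, su, sv]⟩
  · left
    refine ⟨u.1.1, ?_⟩
    have e := hg.dep_eq
    have nb := cgood_not_both hg
    change cdep b L u + y = cdep b L v + x at e
    simp only [cdep] at e
    rw [← heq] at sv
    omega
  · right
    refine ⟨_, _, hgt, ?_⟩
    have := cgood_lt (good_symm hg) hgt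
    omega

end

lemma iso_ncard {V W : Type} {G : SimpleGraph V} {H : SimpleGraph W} (e : G ≃g H) (v : V) :
    (H.neighborSet (e v)).ncard = (G.neighborSet v).ncard :=
  (Nat.card_congr (e.mapNeighborSet v)).symm

lemma IsOneThreeTree.iso {V W : Type} {G : SimpleGraph V} {H : SimpleGraph W} (e : G ≃g H)
    (h : IsOneThreeTree G) : IsOneThreeTree H := by
  refine ⟨e.isTree_iff.1 h.1, fun w => ?_⟩
  obtain ⟨v, rfl⟩ := e.surjective w
  rw [iso_ncard e v]
  exact h.2 v

lemma LeafLen.iso {V W : Type} {G : SimpleGraph V} {H : SimpleGraph W} (e : G ≃g H) {l : ℕ}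
    (h : LeafLen G l) : LeafLen H l := by
  obtain ⟨u, v, hu, hv, p, hp, hl⟩ := h
  exact ⟨e u, e v, by rw [iso_ncard, hu], by rw [iso_ncard, hv], p.map e.toHom,
    hp.map e.injective, by simpa using hl⟩

lemma IsOneThreeTree.even_card {V : Type} [Fintype V] {G : SimpleGraph V}
    (h : IsOneThreeTree G) : Even (Fintype.card V) := by
  classical
  have := G.even_card_odd_degree_vertices
  rw [Finset.filter_true_of_mem, Finset.card_univ] at this
  · exact this
  · intro v _
    have h2 := h.2 v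
    rw [← Nat.card_coe_set_eq, Nat.card_eq_fintype_card, card_neighborSet_eq_degree] at h2
    rcases h2 with h2 | h2 <;> rw [h2] <;> decide

lemma caterpillar (b : ℕ → ℕ) (L : ℕ) (h0 : b 0 = 0) (hL : b (L + 1) = 0)
    (hpos : ∀ i, 1 ≤ i → i ≤ L → 1 ≤ b i) :
    ∃ n, L + 2 ≤ n ∧ Even n ∧ ∃ T : SimpleGraph (Fin n), IsOneThreeTree T ∧
      ∀ l, LeafLen T l → (∃ i, l ≤ 2 * b i) ∨ ∃ i j, i < j ∧ l = b i + b j + (j - i) := by
  have := CV_finite b L
  have := Fintype.ofFinite (CV b L)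
  have hT := cgraph_oneThree h0 hL hpos
  refine ⟨Fintype.card (CV b L), ?_, hT.even_card, (cgraph b L).overFin rfl,
    hT.iso ((cgraph b L).overFinIso rfl), fun l hl =>
      cgraph_lengths h0 hL hpos (hl.iso ((cgraph b L).overFinIso rfl).symm)⟩
  have := Fintype.card_le_of_injective
    (fun i : Fin (L + 2) => (⟨(i.1, 0), i.2, by positivity⟩ : CV b L)) (by
      intro i j e
      simp only [Subtype.mk.injEq, Prod.mk.injEq, and_true] at e
      exact Fin.ext e)
  simpa using this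

end Pool.Agent.P.MP_07218e_co
end

-- part Pool.Agent.P.MP_07218e_co.SumDiff
section

namespace Pool.Agent.P.MP_07218e_co

open Finset

/-- Positive part of the digit coded by `k`. -/
def dU (k : ℕ) : ℕ := if k % 2 = 0 then k / 2 else 0

/-- Negative part of the digit coded by `k`. -/
def dV (k : ℕ) : ℕ := if k % 2 = 0 then 0 else (k + 1) / 2

lemma dU_add_dV (k : ℕ) : dU k + dV k = (k + 1) / 2 := by
  unfold dU dV; split_ifs <;> omega

lemma dU_le {B k : ℕ} (h : k < 2 * B + 1) : dU k ≤ B := by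
  unfold dU; split_ifs <;> omega

lemma dV_le {B k : ℕ} (h : k < 2 * B + 1) : dV k ≤ B := by
  unfold dV; split_ifs <;> omega

lemma d_inj {k k' : ℕ} (h : dU k + dV k' = dU k' + dV k) : k = k' := by
  unfold dU dV at h; split_ifs at h <;> omega

lemma phi_eq (x : ℝ) (B : ℕ) :
    (1 - x) * ∑ k ∈ range (2 * B + 1), x ^ ((k + 1) / 2) = 1 + x - 2 * x ^ (B + 1) := by
  induction B with
  | zero => simp; ring
  | succ B ih =>
    have e : 2 * (B + 1) + 1 = 2 * B + 1 + 1 + 1 := by ring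
    have e1 : (2 * B + 1 + 1) / 2 = B + 1 := by omega
    have e2 : (2 * B + 1 + 1 + 1) / 2 = B + 1 := by omega
    rw [e, sum_range_succ, sum_range_succ, e1, e2, mul_add, mul_add, ih]
    ring

/-- Words with prescribed positive and negative mass. -/
def DD (B n p q : ℕ) : Finset (Fin n → ℕ) :=
  (Fintype.piFinset fun _ : Fin n => range (2 * B + 1)).filter
    fun w => (∑ i, dU (w i), ∑ i, dV (w i)) = (p, q)

lemma exists_DD (B n : ℕ) (x : ℝ) :
    ∃ p q, (∑ k ∈ range (2 * B + 1), x ^ ((k + 1) / 2)) ^ n ≤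
      ((B : ℝ) * n + 1) ^ 2 * ((DD B n p q).card * x ^ (p + q)) := by
  have hpos : (0 : ℝ) < ((B : ℝ) * n + 1) ^ 2 := by positivity
  obtain ⟨⟨p, q⟩, -, h⟩ := Finset.exists_le_sum_fiber_of_maps_to_of_nsmul_le_sum
    (s := Fintype.piFinset fun _ : Fin n => range (2 * B + 1))
    (t := range (B * n + 1) ×ˢ range (B * n + 1))
    (f := fun w => (∑ i, dU (w i), ∑ i, dV (w i)))
    (w := fun w => ∏ i, x ^ ((w i + 1) / 2))
    (b := (∑ k ∈ range (2 * B + 1), x ^ ((k + 1) / 2)) ^ n / ((B : ℝ) * n + 1) ^ 2)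
    (by
      intro w hw
      rw [Fintype.mem_piFinset] at hw
      simp only [mem_range] at hw
      have h1 : ∑ i, dU (w i) ≤ n * B := by
        simpa using Finset.sum_le_card_nsmul univ _ B (fun i _ => dU_le (hw i))
      have h2 : ∑ i, dV (w i) ≤ n * B := by
        simpa using Finset.sum_le_card_nsmul univ _ B (fun i _ => dV_le (hw i))
      rw [mul_comm] at h1 h2
      simp only [mem_product, mem_range]
      omega)
    (by simp)
    (by
      rw [← Finset.prod_univ_sum (fun _ : Fin n => range (2 * B + 1))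
        (fun _ k => x ^ ((k + 1) / 2))]
      simp only [card_product, card_range, nsmul_eq_mul, prod_const, card_univ, Fintype.card_fin]
      push_cast
      apply le_of_eq
      field_simp)
  refine ⟨p, q, ?_⟩
  rw [div_le_iff₀' hpos] at h
  refine h.trans (le_of_eq ?_)
  congr 1
  rw [← nsmul_eq_mul, ← sum_const]
  refine Finset.sum_congr rfl fun w hw => ?_
  have := (mem_filter.1 hw).2
  simp only [Prod.mk.injEq] at this
  rw [Finset.prod_pow_eq_pow_sum, ← this.1, ← this.2, ← Finset.sum_add_distrib]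
  simp only [dU_add_dV]

lemma build_sequence (B n p q M : ℕ) [Fact M.Prime] (hB : 2 * B < M)
    (h1 : 2 * (DD B n p q).card ≤ M) (h2 : M ≤ 4 * (DD B n p q).card) :
    ∃ (a : ZMod M → ZMod M) (R : Finset (ZMod M)),
      R.card ≤ 6 * (Nat.log 2 M + 1) * 2 ^ (n + (p + q)) ∧ ∀ i j, a i + a j + j - i ∈ R := by
  have hmem : ∀ w ∈ DD B n p q, (∀ i, w i < 2 * B + 1) ∧ ∑ i, dU (w i) = p ∧ ∑ i, dV (w i) = q := by
    intro w hw
    simpa [DD, Fintype.mem_piFinset] using hw
  obtain ⟨c, hc⟩ := exists_projection M n (DD B n p q)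
    (fun w i => (dU (w i) : ZMod M) - dV (w i)) (by
      intro w hw w' hw' e
      funext i
      have e1 : (dU (w i) : ZMod M) - dV (w i) = (dU (w' i) : ZMod M) - dV (w' i) := congrFun e i
      have e2 : ((dU (w i) + dV (w' i) : ℕ) : ZMod M) = ((dU (w' i) + dV (w i) : ℕ) : ZMod M) := by
        push_cast
        linear_combination e1
      rw [ZMod.natCast_eq_natCast_iff] at e2
      have a1 := dU_le ((hmem w hw).1 i)
      have a2 := dV_le ((hmem w hw).1 i)
      have a3 := dU_le ((hmem w' hw').1 i)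
      have a4 := dV_le ((hmem w' hw').1 i)
      exact d_inj (e2.eq_of_lt_of_lt (by omega) (by omega))) h1
  obtain ⟨T, hT, hcov⟩ := cover_all
    ((DD B n p q).image fun w => ∑ i, c i * ((dU (w i) : ZMod M) - dV (w i)))
    (by rw [ZMod.card]; omega)
  rw [ZMod.card] at hT
  have : ∀ i : ZMod M, ∃ τ ∈ T, ∃ w ∈ DD B n p q,
      ∑ k, c k * ((dU (w k) : ZMod M) - dV (w k)) = 2 * i - τ := by
    intro i
    obtain ⟨τ, hτ, h⟩ := hcov (2 * i)
    exact ⟨τ, hτ, by simpa using h⟩
  choose τ hτ w hw hwe using this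
  refine ⟨fun i => ∑ k, c k * dV (w i k) + i,
    (T ×ˢ ((Fintype.piFinset fun _ : Fin n => range (p + q + 1)).filter
      fun y => ∑ i, y i = p + q)).image fun s => ∑ k, c k * (s.2 k : ZMod M) + s.1, ?_, ?_⟩
  · refine card_image_le.trans ?_
    rw [card_product]
    exact Nat.mul_le_mul hT (card_compositions n (p + q))
  · intro i j
    rw [mem_image]
    have hs : ∑ k, (dU (w j k) + dV (w i k)) = p + q := by
      rw [Finset.sum_add_distrib, (hmem _ (hw j)).2.1, (hmem _ (hw i)).2.2]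
    refine ⟨(τ j, fun k => dU (w j k) + dV (w i k)), ?_, ?_⟩
    · simp only [mem_product, mem_filter, Fintype.mem_piFinset, mem_range]
      refine ⟨hτ j, fun k => ?_, hs⟩
      rw [← hs, Nat.lt_succ_iff]
      exact Finset.single_le_sum (f := fun k => dU (w j k) + dV (w i k))
        (fun _ _ => Nat.zero_le _) (mem_univ k)
    · have e := hwe j
      simp only [mul_sub, Finset.sum_sub_distrib] at e
      simp only [Nat.cast_add, mul_add, Finset.sum_add_distrib]
      linear_combination e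

lemma exists_sequence {α : ℝ} (hα0 : Real.log 2 / Real.log (1 + √2) < α) (hα1 : α ≤ 1) (M₀ : ℕ) :
    ∃ M : ℕ, M₀ ≤ M ∧ 0 < M ∧ ∃ (a : ZMod M → ZMod M) (R : Finset (ZMod M)),
      (R.card : ℝ) ≤ (M : ℝ) ^ α ∧ ∀ i j, a i + a j + j - i ∈ R := by
  have hs2 : (√2 : ℝ) * √2 = 2 := Real.mul_self_sqrt (by norm_num)
  have hs1 : (1 : ℝ) < √2 := by rw [Real.lt_sqrt (by norm_num)]; norm_num
  have hs3 : (√2 : ℝ) < 2 := by nlinarith
  have hlog : 0 < Real.log (1 + √2) := Real.log_pos (by linarith)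
  have hαpos : 0 < α := lt_trans (div_pos (Real.log_pos (by norm_num)) hlog) hα0
  set x : ℝ := √2 - 1 with hx
  have hx0 : 0 < x := by linarith
  have hx1 : x < 1 := by linarith
  have hθ₀ : (2 : ℝ) ^ (1 / α) < 1 + √2 := by
    rw [← Real.log_lt_log_iff (by positivity) (by linarith), Real.log_rpow (by norm_num)]
    rw [div_lt_iff₀ hlog] at hα0
    rw [div_mul_eq_mul_div, one_mul, div_lt_iff₀ hαpos]
    linarith
  obtain ⟨B, hB⟩ := exists_pow_lt_of_lt_one
    (x := (1 + √2 - (2 : ℝ) ^ (1 / α)) * (1 - x) / 2) (y := x)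
    (by apply div_pos (mul_pos _ _) <;> linarith) hx1
  set Φ : ℝ := ∑ k ∈ range (2 * B + 1), x ^ ((k + 1) / 2) with hΦ
  have hΦe : (1 - x) * Φ = 1 + x - 2 * x ^ (B + 1) := phi_eq x B
  have hρ : (1 - x) * (1 + √2) = 1 + x := by rw [hx]; nlinarith
  have hxB : x ^ (B + 1) ≤ x ^ B := pow_le_pow_of_le_one hx0.le hx1.le (by omega)
  have hxB0 : 0 < x ^ (B + 1) := by positivity
  have hΦ1 : Φ ≤ 1 + √2 := by
    apply le_of_mul_le_mul_left _ (sub_pos.2 hx1)
    linarith
  have hΦ2 : (2 : ℝ) ^ (1 / α) < Φ := by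
    apply lt_of_mul_lt_mul_left _ (sub_pos.2 hx1).le
    nlinarith
  have hΦ0 : 0 < Φ := lt_trans (by positivity) hΦ2
  set θ : ℝ := Φ ^ α with hθ
  have hθ2 : 2 < θ := by
    have := Real.rpow_lt_rpow (by positivity) hΦ2 hαpos
    rwa [← Real.rpow_mul (by norm_num), one_div_mul_cancel hαpos.ne', Real.rpow_one] at this
  have hlim := tendsto_pow_const_mul_const_pow_of_abs_lt_one 3 (r := 2 / θ) (by
    rw [abs_of_pos (by positivity), div_lt_one (by linarith)]; exact hθ2)
  set C : ℝ := 6 * (2 * B + 4) * (B + 1) ^ 2 with hC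
  have hC0 : 0 < C := by positivity
  obtain ⟨s₀, hs₀⟩ := Filter.eventually_atTop.1
    (hlim.eventually (gt_mem_nhds (show (0 : ℝ) < 1 / C by positivity)))
  set n : ℕ := s₀ + M₀ + B + 1 with hn
  obtain ⟨p, q, hpq⟩ := exists_DD B n x
  rw [← hΦ] at hpq
  set d : ℕ := (DD B n p q).card with hd
  set s : ℕ := n + (p + q) with hs
  have hs1' : (1 : ℝ) ≤ s := by exact_mod_cast (by omega : 1 ≤ s)
  have hns : (n : ℝ) ≤ s := by exact_mod_cast (by omega : n ≤ s)
  have k1 : Φ ^ s ≤ (((B : ℝ) + 1) * s) ^ 2 * d := by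
    have e1 : (1 + √2) ^ (p + q) * x ^ (p + q) = 1 := by
      rw [← mul_pow]
      have : (1 + √2) * x = 1 := by rw [hx]; nlinarith
      rw [this, one_pow]
    calc Φ ^ s = Φ ^ n * Φ ^ (p + q) := by rw [hs, pow_add]
      _ ≤ (((B : ℝ) * n + 1) ^ 2 * (d * x ^ (p + q))) * (1 + √2) ^ (p + q) := by gcongr
      _ = ((B : ℝ) * n + 1) ^ 2 * d * ((1 + √2) ^ (p + q) * x ^ (p + q)) := by ring
      _ = ((B : ℝ) * n + 1) ^ 2 * d := by rw [e1, mul_one]
      _ ≤ _ := by
        gcongr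
        have : (B : ℝ) * n ≤ B * s := by gcongr
        linarith
  have hP1 : (1 : ℝ) ≤ (((B : ℝ) + 1) * s) ^ 2 := by
    apply one_le_pow₀
    have : (0 : ℝ) ≤ B := by positivity
    nlinarith
  have k2 : θ ^ s ≤ (((B : ℝ) + 1) * s) ^ 2 * (d : ℝ) ^ α := by
    calc θ ^ s = (Φ ^ s) ^ α := by
          rw [hθ, ← Real.rpow_natCast, ← Real.rpow_natCast, ← Real.rpow_mul hΦ0.le,
            ← Real.rpow_mul hΦ0.le, mul_comm]
      _ ≤ ((((B : ℝ) + 1) * s) ^ 2 * d) ^ α := Real.rpow_le_rpow (by positivity) k1 hαpos.le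
      _ = ((((B : ℝ) + 1) * s) ^ 2) ^ α * (d : ℝ) ^ α :=
          Real.mul_rpow (by positivity) (by positivity)
      _ ≤ _ := by
          gcongr
          exact Real.rpow_le_self_of_one_le hP1 hα1
  have k3 : 6 * (2 * (B : ℝ) + 4) * s * 2 ^ s ≤ (d : ℝ) ^ α := by
    have h := (hs₀ s (by omega)).le
    rw [div_pow, ← mul_div_assoc, div_le_div_iff₀ (by positivity) hC0, one_mul] at h
    apply le_of_mul_le_mul_left _ (lt_of_lt_of_le one_pos hP1)
    refine le_trans (le_of_eq ?_) (h.trans k2)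
    rw [hC]; ring
  have k4 : (2 : ℝ) ^ s ≤ (d : ℝ) ^ α := by
    refine le_trans ?_ k3
    apply le_mul_of_one_le_left (by positivity)
    have : (0 : ℝ) ≤ B := by positivity
    nlinarith
  have hd1 : (1 : ℝ) ≤ d := by
    rcases Nat.eq_zero_or_pos d with h0 | h0
    · rw [h0, Nat.cast_zero, Real.zero_rpow hαpos.ne'] at k4
      exact absurd k4 (not_le.2 (by positivity))
    · exact_mod_cast h0
  have k5 : 2 ^ s ≤ d := by
    have := k4.trans (Real.rpow_le_self_of_one_le hd1 hα1)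
    exact_mod_cast this
  have k6 : s < 2 ^ s := Nat.lt_two_pow_self
  obtain ⟨M, hMp, hM1, hM2⟩ := Nat.exists_prime_lt_and_le_two_mul (2 * d) (by omega)
  have : Fact M.Prime := ⟨hMp⟩
  obtain ⟨a, R, hR, ha⟩ := build_sequence B n p q M (by omega) (by omega) (by omega)
  refine ⟨M, by omega, by omega, a, R, ?_, ha⟩
  have hdle : d ≤ (2 * B + 1) ^ n := by
    refine (card_filter_le _ _).trans ?_
    simp
  have hMle : M ≤ 2 ^ (2 + (2 * B + 1) * n) := by
    rw [pow_add, pow_mul]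
    have : (2 * B + 1) ^ n ≤ (2 ^ (2 * B + 1)) ^ n :=
      Nat.pow_le_pow_left Nat.lt_two_pow_self.le _
    omega
  have hlogM : Nat.log 2 M ≤ 2 + (2 * B + 1) * n := by
    have := Nat.log_mono_right (b := 2) hMle
    rwa [Nat.log_pow (by norm_num)] at this
  have hr : 6 * (Nat.log 2 M + 1) ≤ 6 * (2 * B + 4) * s := by
    have : (2 * B + 1) * n ≤ (2 * B + 1) * s := Nat.mul_le_mul_left _ (by omega)
    have : 1 ≤ s := by omega
    nlinarith
  have hR2 : R.card ≤ 6 * (2 * B + 4) * s * 2 ^ s := hR.trans (Nat.mul_le_mul_right _ hr)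
  calc (R.card : ℝ) ≤ 6 * (2 * (B : ℝ) + 4) * s * 2 ^ s := by exact_mod_cast hR2
    _ ≤ (d : ℝ) ^ α := k3
    _ ≤ (M : ℝ) ^ α := Real.rpow_le_rpow (by positivity)
        (by exact_mod_cast (by omega : d ≤ M)) hαpos.le

end Pool.Agent.P.MP_07218e_co
end

-- part Pool.Agent.P.MP_07218e_co.Upper
section

namespace Pool.Agent.P.MP_07218e_co

open Finset

lemma card_residues (M N : ℕ) (hM : 0 < M) (R : Finset (ZMod M)) :
    ((range (N + 1)).filter fun l : ℕ => (l : ZMod M) ∈ R).card ≤ (N / M + 1) * R.card := by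
  rw [← card_range (N / M + 1), ← card_product]
  apply card_le_card_of_injOn (fun l : ℕ => (l / M, (l : ZMod M)))
  · intro l hl
    simp only [coe_filter, mem_range, Set.mem_ofPred_eq] at hl
    simp only [coe_product, coe_range, Set.mem_prod, Set.mem_Iio, mem_coe]
    exact ⟨Nat.lt_succ_of_le (Nat.div_le_div_right (by omega)), hl.2⟩
  · intro l _ l' _ e
    simp only [Prod.mk.injEq] at e
    have h2 := (ZMod.natCast_eq_natCast_iff' _ _ _).1 e.2
    rw [← Nat.div_add_mod l M, ← Nat.div_add_mod l' M, e.1, h2]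

lemma exists_tree (M : ℕ) (hM : 0 < M) (a : ZMod M → ZMod M) (R : Finset (ZMod M))
    (ha : ∀ i j, a i + a j + j - i ∈ R) (N n₀ : ℕ) :
    ∃ n, n₀ ≤ n ∧ Even n ∧ ∃ T : SimpleGraph (Fin n), IsOneThreeTree T ∧
      (leafLengths T N).ncard ≤ 2 * M + 1 + (N / M + 1) * R.card := by
  classical
  have : NeZero M := ⟨by omega⟩
  obtain ⟨L, hL⟩ : ∃ L, L + 1 = M * (n₀ + 1) := ⟨M * (n₀ + 1) - 1, by
    have : 0 < M * (n₀ + 1) := by positivity
    omega⟩
  set b : ℕ → ℕ := fun i => if i = 0 ∨ i = L + 1 then 0 else (a i - a 0 - 1).val + 1 with hb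
  have hb1 : ∀ i, b i ≤ M := by
    intro i
    simp only [hb]
    split_ifs
    · omega
    · exact ZMod.val_lt _
  have hb2 : ∀ i : ℕ, (b i : ZMod M) = a i - a 0 := by
    intro i
    simp only [hb]
    split_ifs with h
    · rcases h with rfl | rfl
      · simp
      · rw [hL]; simp
    · simp
  obtain ⟨n, hn, hev, T, hT, hlen⟩ := caterpillar b L (by simp [hb]) (by simp [hb]) (by
    intro i h1 h2
    simp only [hb]
    rw [if_neg (by omega)]
    omega)
  have : 1 * (n₀ + 1) ≤ M * (n₀ + 1) := Nat.mul_le_mul_right _ hM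
  refine ⟨n, by omega, hev, T, hT, ?_⟩
  have hsub : leafLengths T N ⊆ ((range (2 * M + 1) ∪ (range (N + 1)).filter
      fun l : ℕ => (l : ZMod M) ∈ R.image (fun r => r - 2 * a 0) : Finset ℕ) : Set ℕ) := by
    rintro l ⟨hlN, hl⟩
    rw [mem_coe, mem_union, mem_filter, mem_range, mem_range, mem_image]
    rcases hlen l hl with ⟨i, hi⟩ | ⟨i, j, hij, rfl⟩
    · left
      have := hb1 i
      omega
    · right
      refine ⟨by omega, _, ha i j, ?_⟩
      rw [Nat.cast_add, Nat.cast_add, Nat.cast_sub hij.le, hb2, hb2]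
      ring
  refine (Set.ncard_le_ncard hsub (finite_toSet _)).trans ?_
  rw [Set.ncard_coe_finset]
  refine (card_union_le _ _).trans ?_
  rw [card_range]
  exact Nat.add_le_add_left ((card_residues M N hM _).trans
    (Nat.mul_le_mul_left _ card_image_le)) _

lemma log_ratio_lt_one : Real.log 2 / Real.log (1 + √2) < 1 := by
  have hs1 : (1 : ℝ) < √2 := by rw [Real.lt_sqrt (by norm_num)]; norm_num
  rw [div_lt_one (Real.log_pos (by linarith))]
  exact Real.log_lt_log (by norm_num) (by linarith)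

lemma not_propertyP {c : ℝ} (hc1 : (2 - Real.log 2 / Real.log (1 + √2))⁻¹ < c) (hc2 : c ≤ 1) :
    ¬ PropertyP c := by
  rintro ⟨κ, hκ, hP⟩
  have h1 := log_ratio_lt_one
  set α₀ := Real.log 2 / Real.log (1 + √2) with hα₀
  have hc0 : 0 < c := lt_trans (inv_pos.2 (by linarith)) hc1
  have h2 : 1 / c < 2 - α₀ := by
    rw [one_div]
    exact (inv_lt_comm₀ (by linarith) hc0).1 hc1
  have h3 : 1 ≤ 1 / c := by rw [le_div_iff₀ hc0]; linarith
  set α : ℝ := (α₀ + 2 - 1 / c) / 2 with hα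
  have hα1 : α ≤ 1 := by linarith
  have hγ : 0 < (2 - α) * c - 1 := by
    have : 1 / c < 2 - α := by linarith
    rw [div_lt_iff₀ hc0] at this
    linarith
  obtain ⟨M₀, hM₀⟩ := Filter.eventually_atTop.1
    (((tendsto_rpow_atTop hγ).comp tendsto_natCast_atTop_atTop).eventually
      (Filter.eventually_gt_atTop (6 / κ)))
  obtain ⟨M, hM1, hM2, a, R, hR, ha⟩ := exists_sequence (α := α) (by linarith) hα1 M₀
  have hMγ : 6 / κ < (M : ℝ) ^ ((2 - α) * c - 1) := hM₀ M hM1
  have hM : (1 : ℝ) ≤ M := by exact_mod_cast hM2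
  set N : ℕ := ⌈(M : ℝ) ^ (2 - α)⌉₊ with hN
  have hN1 : (M : ℝ) ^ (2 - α) ≤ N := Nat.le_ceil _
  have hN2 : (N : ℝ) < (M : ℝ) ^ (2 - α) + 1 := Nat.ceil_lt_add_one (by positivity)
  obtain ⟨n₀, hn₀⟩ := hP N (Nat.one_le_ceil_iff.2 (by positivity))
  obtain ⟨n, hn, hev, T, hT, hcount⟩ := exists_tree M hM2 a R ha N n₀
  have k1 := hn₀ n hn hev T hT
  have k2 : ((leafLengths T N).ncard : ℝ) ≤ 2 * M + 1 + ((N / M : ℕ) + 1) * R.card := by
    exact_mod_cast hcount
  have k3 : ((N / M : ℕ) : ℝ) ≤ (M : ℝ) ^ (1 - α) + 1 := by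
    refine Nat.cast_div_le.trans ?_
    rw [div_le_iff₀ (by linarith)]
    have : (M : ℝ) ^ (2 - α) = (M : ℝ) ^ (1 - α) * M := by
      rw [← Real.rpow_add_one (by linarith)]; congr 1; ring
    nlinarith
  have k4 : (M : ℝ) ^ α ≤ M := Real.rpow_le_self_of_one_le hM hα1
  have k5 : (M : ℝ) ^ (1 - α) * (M : ℝ) ^ α = M := by
    rw [← Real.rpow_add (by linarith)]; simp
  have k6 : (((N / M : ℕ) : ℝ) + 1) * R.card ≤ ((M : ℝ) ^ (1 - α) + 1 + 1) * (M : ℝ) ^ α := by
    gcongr
  have k7 : ((leafLengths T N).ncard : ℝ) ≤ 6 * M := by nlinarith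
  have k8 : (M : ℝ) ^ ((2 - α) * c - 1) * M ≤ (N : ℝ) ^ c := by
    rw [← Real.rpow_add_one (by linarith), sub_add_cancel, Real.rpow_mul (by linarith)]
    exact Real.rpow_le_rpow (by positivity) hN1 hc0.le
  rw [div_lt_iff₀ hκ] at hMγ
  have k9 := mul_le_mul_of_nonneg_left k8 hκ.le
  nlinarith

theorem upper_main : cStar ≤ (2 - Real.log 2 / Real.log (1 + √2))⁻¹ := by
  apply Real.sSup_le
  · rintro c ⟨hc, hP⟩
    by_contra hlt
    exact not_propertyP (not_le.1 hlt) hc.2 hP
  · have := log_ratio_lt_one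
    exact (inv_pos.2 (by linarith)).le

end Pool.Agent.P.MP_07218e_co
end

-- part Pool.Agent.P.MP_07218e_co.Semigroup
section

/-! The digit system given by the numerical semigroup generated by 4 and 5. -/

namespace Pool.Agent.P.MP_07218e_co

open Finset

/-- The least `y` such that `y` and `y + z` lie in the semigroup generated by 4 and 5. -/
def shift (z : ℕ) : ℕ :=
  if z = 1 ∨ z = 6 ∨ z = 11 then 4 else if z = 3 ∨ z = 7 then 5 else if z = 2 then 8 else 0

/-- Membership in the semigroup generated by 4 and 5. -/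
def inS (y : ℕ) : Bool := !(y = 1 ∨ y = 2 ∨ y = 3 ∨ y = 6 ∨ y = 7 ∨ y = 11)

lemma inS_add {x y : ℕ} (hx : inS x = true) (hy : inS y = true) : inS (x + y) = true := by
  simp only [inS, Bool.not_eq_true', decide_eq_false_iff_not] at *
  omega

/-- The digit system. -/
def G45 : Digits where
  K := 161
  B := 80
  u k := dU k + shift ((k + 1) / 2)
  v k := dV k + shift ((k + 1) / 2)
  S := inS
  u_le := by decide +kernel
  v_le := by decide +kernel
  inj k k' h := d_inj (by omega)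
  mem k hk k' hk' := inS_add
    ((by decide +kernel : ∀ k < 161, inS (dU k + shift ((k + 1) / 2)) = true) k hk)
    ((by decide +kernel : ∀ k < 161, inS (dV k + shift ((k + 1) / 2)) = true) k' hk')

lemma G45_sum (m : ℕ) :
    ∑ y ∈ (range m).filter (fun y => G45.S y = true), (8512 / 10000 : ℝ) ^ y
      ≤ 365389 / 100000 := by
  have h1 : ∑ y ∈ (range m).filter (fun y => G45.S y = true), (8512 / 10000 : ℝ) ^ y
      ≤ ∑ y ∈ (range (12 + m)).filter (fun y => inS y = true), (8512 / 10000 : ℝ) ^ y :=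
    Finset.sum_le_sum_of_subset_of_nonneg
      (filter_subset_filter _ (range_mono (by omega))) (fun _ _ _ => by positivity)
  refine h1.trans ?_
  rw [sum_filter, sum_range_add]
  have h2 : ∑ y ∈ range m, (if inS (12 + y) = true then (8512 / 10000 : ℝ) ^ (12 + y) else 0)
      ≤ (8512 / 10000 : ℝ) ^ 12 * (1 - 8512 / 10000)⁻¹ := by
    calc _ ≤ ∑ y ∈ range m, (8512 / 10000 : ℝ) ^ 12 * (8512 / 10000 : ℝ) ^ y := by
          refine Finset.sum_le_sum fun y _ => ?_
          rw [← pow_add]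
          split_ifs
          · exact le_rfl
          · positivity
      _ ≤ _ := by
          rw [← Finset.mul_sum]
          gcongr
          rw [← tsum_geometric_of_lt_one (by norm_num) (by norm_num)]
          exact (summable_geometric_of_lt_one (by norm_num) (by norm_num)).sum_le_tsum _
            (fun _ _ => by positivity)
  have h3 : ∑ y ∈ range 12, (if inS y = true then (8512 / 10000 : ℝ) ^ y else 0)
      = 1 + (8512 / 10000 : ℝ) ^ 4 + (8512 / 10000 : ℝ) ^ 5 + (8512 / 10000 : ℝ) ^ 8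
        + (8512 / 10000 : ℝ) ^ 9 + (8512 / 10000 : ℝ) ^ 10 := by
    simp [sum_range_succ, inS]
  rw [h3]
  refine (add_le_add_right h2 _).trans ?_
  norm_num

lemma G45_diff : (520168 / 100000 : ℝ) ≤
    ∑ k ∈ range G45.K, (814633 / 1000000 : ℝ) ^ (G45.u k + G45.v k) := by
  have h : (520168 / 100000 : ℚ) ≤ ∑ k ∈ range 161, (814633 / 1000000 : ℚ) ^
      (dU k + shift ((k + 1) / 2) + (dV k + shift ((k + 1) / 2))) := by decide +kernel
  have h2 := (Rat.cast_le (K := ℝ)).2 h
  push_cast at h2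
  exact h2

lemma rpow_ratio_le {x y : ℝ} (hx : 0 ≤ x) (hy : 0 ≤ y) (h : x ^ 499 ≤ y ^ 635) :
    x ^ (499 / 635 : ℝ) ≤ y := by
  refine le_of_pow_le_pow_left₀ (n := 635) (by norm_num) hy ?_
  rw [← Real.rpow_natCast, ← Real.rpow_mul hx]
  norm_num
  exact h

lemma lt_rpow_ratio {x y : ℝ} (hx : 0 ≤ x) (h : y ^ 635 < x ^ 499) :
    y < x ^ (499 / 635 : ℝ) := by
  refine lt_of_pow_lt_pow_left₀ 635 (by positivity) ?_
  rw [← Real.rpow_natCast (x ^ (499 / 635 : ℝ)), ← Real.rpow_mul hx]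
  norm_num
  exact h

lemma exists_sequence45 (M₀ : ℕ) :
    ∃ M : ℕ, M₀ ≤ M ∧ 0 < M ∧ ∃ (a : ZMod M → ZMod M) (R : Finset (ZMod M)),
      (R.card : ℝ) ≤ (M : ℝ) ^ (499 / 635 : ℝ) ∧ ∀ i j, a i + a j + j - i ∈ R := by
  have e1 : (814633 / 1000000 : ℚ) ^ 499 ≤ (8512 / 10000 : ℚ) ^ 635 := by decide +kernel
  have e2 : (365389 / 100000 : ℚ) ^ 635 < (520168 / 100000 : ℚ) ^ 499 := by decide +kernel
  have f1 := (Rat.cast_le (K := ℝ)).2 e1
  have f2 := (Rat.cast_lt (K := ℝ)).2 e2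
  rw [Rat.cast_pow, Rat.cast_pow, Rat.cast_div, Rat.cast_div] at f1 f2
  simp only [Rat.cast_ofNat] at f1 f2
  refine G45.exists_seq (r := 8512 / 10000) (t := 814633 / 1000000) (F := 365389 / 100000)
    (by norm_num) (by norm_num) (by norm_num) (by norm_num) (by norm_num)
    (rpow_ratio_le (by norm_num) (by norm_num) f1) (by norm_num) G45_sum ?_ M₀
  exact (lt_rpow_ratio (by norm_num) f2).trans_le
    (Real.rpow_le_rpow (by norm_num) G45_diff (by norm_num))

lemma not_propertyP_of_seq {α c : ℝ} (hα1 : α ≤ 1)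
    (hseq : ∀ M₀ : ℕ, ∃ M : ℕ, M₀ ≤ M ∧ 0 < M ∧ ∃ (a : ZMod M → ZMod M) (R : Finset (ZMod M)),
      (R.card : ℝ) ≤ (M : ℝ) ^ α ∧ ∀ i j, a i + a j + j - i ∈ R)
    (hc1 : (2 - α)⁻¹ < c) : ¬ PropertyP c := by
  rintro ⟨κ, hκ, hP⟩
  have hc0 : 0 < c := lt_trans (inv_pos.2 (by linarith)) hc1
  have hγ : 0 < (2 - α) * c - 1 := by
    rw [inv_lt_iff_one_lt_mul₀' (by linarith)] at hc1
    linarith
  obtain ⟨M₀, hM₀⟩ := Filter.eventually_atTop.1
    (((tendsto_rpow_atTop hγ).comp tendsto_natCast_atTop_atTop).eventually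
      (Filter.eventually_gt_atTop (6 / κ)))
  obtain ⟨M, hM1, hM2, a, R, hR, ha⟩ := hseq M₀
  have hMγ : 6 / κ < (M : ℝ) ^ ((2 - α) * c - 1) := hM₀ M hM1
  have hM : (1 : ℝ) ≤ M := by exact_mod_cast hM2
  set N : ℕ := ⌈(M : ℝ) ^ (2 - α)⌉₊ with hN
  have hN1 : (M : ℝ) ^ (2 - α) ≤ N := Nat.le_ceil _
  have hN2 : (N : ℝ) < (M : ℝ) ^ (2 - α) + 1 := Nat.ceil_lt_add_one (by positivity)
  obtain ⟨n₀, hn₀⟩ := hP N (Nat.one_le_ceil_iff.2 (by positivity))
  obtain ⟨n, hn, hev, T, hT, hcount⟩ := exists_tree M hM2 a R ha N n₀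
  have k1 := hn₀ n hn hev T hT
  have k2 : ((leafLengths T N).ncard : ℝ) ≤ 2 * M + 1 + ((N / M : ℕ) + 1) * R.card := by
    exact_mod_cast hcount
  have k3 : ((N / M : ℕ) : ℝ) ≤ (M : ℝ) ^ (1 - α) + 1 := by
    refine Nat.cast_div_le.trans ?_
    rw [div_le_iff₀ (by linarith)]
    have : (M : ℝ) ^ (2 - α) = (M : ℝ) ^ (1 - α) * M := by
      rw [← Real.rpow_add_one (by linarith)]; congr 1; ring
    nlinarith
  have k4 : (M : ℝ) ^ α ≤ M := Real.rpow_le_self_of_one_le hM hα1
  have k5 : (M : ℝ) ^ (1 - α) * (M : ℝ) ^ α = M := by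
    rw [← Real.rpow_add (by linarith)]; simp
  have k6 : (((N / M : ℕ) : ℝ) + 1) * R.card ≤ ((M : ℝ) ^ (1 - α) + 1 + 1) * (M : ℝ) ^ α := by
    gcongr
  have k7 : ((leafLengths T N).ncard : ℝ) ≤ 6 * M := by nlinarith
  have k8 : (M : ℝ) ^ ((2 - α) * c - 1) * M ≤ (N : ℝ) ^ c := by
    rw [← Real.rpow_add_one (by linarith), sub_add_cancel, Real.rpow_mul (by linarith)]
    exact Real.rpow_le_rpow (by positivity) hN1 hc0.le
  rw [div_lt_iff₀ hκ] at hMγ
  have k9 := mul_le_mul_of_nonneg_left k8 hκ.le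
  nlinarith

theorem upper45 : cStar ≤ 635 / 771 := by
  apply Real.sSup_le
  · rintro c ⟨-, hP⟩
    by_contra hlt
    refine not_propertyP_of_seq (α := 499 / 635) (by norm_num) exists_sequence45 ?_ hP
    have : ((2 : ℝ) - 499 / 635)⁻¹ = 635 / 771 := by norm_num
    rw [this]
    exact not_le.1 hlt
  · norm_num

end Pool.Agent.P.MP_07218e_co
end
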